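import Mathlib
import Pool.Agent.Lib.MP_60829e_nt.Rate.Final

/-! From one integer to tuples of integers, for an arbitrary hereditary property. -/

open Finset

namespace MP60829e.AC

open MP60829e.Rate

/-- a property of families that is inherited by subfamilies and renamings -/
def Her (N : (ι : Type) → (ι → ℂ) → Prop) : Prop :=
  ∀ (ι ι' : Type) (y : ι' → ℂ) (e : ι → ι'), Function.Injective e → N ι' y → N ι (y ∘ e)

variable {N : (ι : Type) → (ι → ℂ) → Prop}

theorem her_rest (hN : Her N) {k n : ℕ} {lam : Fin k → ℂ} {y : Fin n → ℂ} (h : N _ (Sum.elim lam y)) :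
    N _ (rest lam y) := hN _ _ _ _ finSumFinEquiv.symm.injective h

theorem her_of_rest (hN : Her N) {k n : ℕ} {lam : Fin k → ℂ} (y : Fin (n + 1) → ℂ) (i : Fin (n + 1))
    (h : N _ (Sum.elim (rest lam (y ∘ i.succAbove)) fun _ : Fin 1 => y i)) :
    N _ (Sum.elim lam y) := by
  classical
  let g : Fin (n + 1) → Fin (k + n) ⊕ Fin 1 :=
    i.insertNth (Sum.inr 0) (fun j => Sum.inl (finSumFinEquiv (Sum.inr j)))
  have hgi : g i = Sum.inr 0 := by simp [g]
  have hgj : ∀ j, g (i.succAbove j) = Sum.inl (finSumFinEquiv (Sum.inr j)) := by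
    intro j; simp [g]
  let e : Fin k ⊕ Fin (n + 1) → Fin (k + n) ⊕ Fin 1 :=
    Sum.elim (fun j => Sum.inl (finSumFinEquiv (Sum.inl j))) g
  have hcase : ∀ a : Fin (n + 1), a = i ∨ ∃ j, a = i.succAbove j := by
    intro a
    by_cases ha : a = i
    · exact Or.inl ha
    · obtain ⟨j, hj⟩ := Fin.exists_succAbove_eq ha
      exact Or.inr ⟨j, hj.symm⟩
  have hginj : Function.Injective g := by
    intro a a' h
    rcases hcase a with ha | ⟨j, ha⟩ <;> rcases hcase a' with ha' | ⟨j', ha'⟩
    · rw [ha, ha']
    · rw [ha, ha', hgi, hgj] at h; exact absurd h (by simp)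
    · rw [ha, ha', hgi, hgj] at h; exact absurd h (by simp)
    · rw [ha, ha', hgj, hgj] at h
      have h1 := Sum.inl_injective h
      have h2 := Sum.inr_injective (finSumFinEquiv.injective h1)
      rw [ha, ha', h2]
  have hne : ∀ (a : Fin k) (a' : Fin (n + 1)), e (Sum.inl a) ≠ e (Sum.inr a') := by
    intro a a' h
    have h0 : (Sum.inl (finSumFinEquiv (Sum.inl a)) : Fin (k + n) ⊕ Fin 1) = g a' := h
    rcases hcase a' with ha' | ⟨j, ha'⟩
    · rw [ha', hgi] at h0; exact absurd h0 (by simp)
    · rw [ha', hgj] at h0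
      have h1 := finSumFinEquiv.injective (Sum.inl_injective h0)
      exact absurd h1 (by simp)
  have he : Function.Injective e := by
    rintro (a | a) (a' | a') h
    · have h1 := finSumFinEquiv.injective (Sum.inl_injective h)
      exact congrArg Sum.inl (Sum.inl_injective h1)
    · exact absurd h (hne a a')
    · exact absurd h.symm (hne a' a)
    · exact congrArg Sum.inr (hginj h)
  have h1 := hN _ _ _ e he h
  convert h1 using 1
  funext t
  rcases t with a | a
  · simp [e, rest]
  · have h0 : e (Sum.inr a) = g a := rfl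
    rcases hcase a with ha | ⟨j, ha⟩
    · rw [Function.comp_apply, h0, ha, hgi]
      simp
    · rw [Function.comp_apply, h0, ha, hgj]
      simp [rest]

/-- the bad integers -/
def BadA (N : (ι : Type) → (ι → ℂ) → Prop) {k : ℕ} (lam : Fin k → ℂ) (u : ℂ) : Set ℕ :=
  {b : ℕ | ¬ N _ (Sum.elim lam fun _ : Fin 1 => u + ((Real.log b : ℝ) : ℂ))}

/-- the bad tuples in a box -/
noncomputable def BadN (N : (ι : Type) → (ι → ℂ) → Prop) {k n : ℕ} (lam : Fin k → ℂ) (u : Fin n → ℂ)
    (B : ℕ) : Finset (Fin n → ℕ) := by
  classical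
  exact (Fintype.piFinset fun _ : Fin n => Icc 1 B).filter
    (fun b => ¬ N _ (Sum.elim lam fun i => u i + ((Real.log (b i) : ℝ) : ℂ)))

theorem mem_BadN {k n : ℕ} {lam : Fin k → ℂ} {u : Fin n → ℂ} {B : ℕ} {b : Fin n → ℕ} :
    b ∈ BadN N lam u B ↔ (∀ i, 1 ≤ b i ∧ b i ≤ B) ∧
      ¬ N _ (Sum.elim lam fun i => u i + ((Real.log (b i) : ℝ) : ℂ)) := by
  classical
  unfold BadN
  rw [mem_filter, Fintype.mem_piFinset]
  simp only [mem_Icc]

theorem tuple_bound_abs (hN : Her N) (k r s B n0 : ℕ) (lam : Fin k → ℂ) (hlam : N _ lam) (hB : 1 ≤ B)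
    (τ ν G : ℝ) (hτ : 0 ≤ τ) (hG : 0 ≤ G)
    (H1 : ∀ k' ≤ k + n0, ∀ lam' : Fin k' → ℂ, N _ lam' → ∀ u', ∀ S : Finset ℕ,
      (∀ b ∈ S, 1 ≤ b ∧ b ≤ B ∧ b ∈ BadA N lam' u' ∧ r ≤ om s b) → (S.card : ℝ) ≤ B * τ)
    (H2 : ((Sm s r B).card : ℝ) ≤ B * ν)
    (H3 : ∀ u', ∀ S : Finset ℕ, (∀ b ∈ S, 1 ≤ b ∧ b ≤ B ∧ b ∈ BadA N lam u') → (S.card : ℝ) ≤ B * G)
    (H4 : 2 * τ + ν ^ 2 ≤ G) :
    ∀ n ≤ n0 + 1, ∀ u : Fin n → ℂ, ((BadN N lam u B).card : ℝ) ≤ B ^ n * ((n + 1).factorial * G) := by
  classical
  have hB0 : (0 : ℝ) < B := by exact_mod_cast hB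
  intro n
  induction n with
  | zero =>
    intro _ u
    have h1 : BadN N lam u B = ∅ := by
      rw [Finset.eq_empty_iff_forall_notMem]
      intro b hb
      rw [mem_BadN] at hb
      apply hb.2
      have h2 := hN _ _ lam (Sum.elim id (fun i : Fin 0 => i.elim0) : Fin k ⊕ Fin 0 → Fin k) (by
        rintro (a | a) (a' | a') h
        · exact congrArg Sum.inl h
        · exact a'.elim0
        · exact a.elim0
        · exact a.elim0) hlam
      convert h2 using 1
      funext t
      rcases t with a | a
      · rfl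
      · exact a.elim0
    rw [h1]
    simp only [card_empty, Nat.cast_zero]
    positivity
  | succ n ih =>
    intro hn u
    -- a bad tuple either has a bad proper subtuple, or every coordinate is bad for the others
    set y : (Fin (n + 1) → ℕ) → Fin (n + 1) → ℂ := fun b i => u i + ((Real.log (b i) : ℝ) : ℂ) with hy
    have hcoord : ∀ b ∈ BadN N lam u B, ∀ i : Fin (n + 1),
        b i ∈ BadA N (rest lam (y b ∘ i.succAbove)) (u i) := by
      intro b hb i hno
      rw [mem_BadN] at hb
      exact hb.2 (her_of_rest hN (y b) i hno)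
    rcases Nat.eq_zero_or_pos n with hn0 | hn0
    · subst hn0
      have h1 := card_fiber 0 0 B (BadN N lam u B) (fun b hb => (mem_BadN.mp hb).1) (B * G)
        (fun _ => (BadN N lam u B).image (fun b => b 0)) (fun b hb => mem_image_of_mem _ hb)
        (fun b _ => by
          refine H3 (u 0) _ fun x hx => ?_
          rw [mem_image] at hx
          obtain ⟨b, hb, rfl⟩ := hx
          have hb' := mem_BadN.mp hb
          refine ⟨(hb'.1 0).1, (hb'.1 0).2, ?_⟩
          intro hno
          apply hb'.2
          convert hno using 1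
          funext t
          rcases t with a | a
          · rfl
          · have : a = 0 := Fin.ext (by have := a.2; omega)
            subst this
            rfl) (by positivity)
      refine h1.trans ?_
      have h2 : (((0 + 1 + 1).factorial : ℕ) : ℝ) = 2 := by norm_num [Nat.factorial]
      rw [h2]
      have : 0 ≤ (B : ℝ) * G := by positivity
      simp only [pow_zero, zero_add, pow_one]
      nlinarith
    · obtain ⟨n, rfl⟩ : ∃ m, n = m + 1 := ⟨n - 1, by omega⟩
      -- (a)
      set SA : Fin (n + 2) → Finset (Fin (n + 2) → ℕ) := fun i =>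
        (BadN N lam u B).filter (fun b => b ∘ i.succAbove ∈ BadN N lam (u ∘ i.succAbove) B) with hSA
      set SG : Finset (Fin (n + 2) → ℕ) :=
        (BadN N lam u B).filter (fun b => ∀ i : Fin (n + 2), b ∘ i.succAbove ∉ BadN N lam (u ∘ i.succAbove) B) with hSG
      have hA : ∀ i, ((SA i).card : ℝ) ≤ B * (B ^ (n + 1) * ((n + 2).factorial * G)) := by
        intro i
        have h1 : (SA i).card ≤ (BadN N lam (u ∘ i.succAbove) B).card * B := by
          have h2 : (SA i).card ≤ ((BadN N lam (u ∘ i.succAbove) B) ×ˢ (Icc 1 B)).card := by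
            refine Finset.card_le_card_of_injOn (fun b => (b ∘ i.succAbove, b i)) ?_ ?_
            · intro b hb
              rw [hSA, mem_coe, mem_filter] at hb
              rw [mem_coe, mem_product, mem_Icc]
              exact ⟨hb.2, (mem_BadN.mp hb.1).1 i⟩
            · intro b hb b2 hb2 h
              simp only [Prod.mk.injEq] at h
              funext j
              by_cases hj : j = i
              · rw [hj]; exact h.2
              · obtain ⟨j', hj'⟩ := Fin.exists_succAbove_eq hj
                rw [← hj']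
                exact congrFun h.1 j'
          rw [card_product, Nat.card_Icc, Nat.add_sub_cancel] at h2
          exact h2
        have h2 := ih (by omega) (u ∘ i.succAbove)
        calc ((SA i).card : ℝ) ≤ (BadN N lam (u ∘ i.succAbove) B).card * B := by exact_mod_cast h1
          _ ≤ (B ^ (n + 1) * ((n + 2).factorial * G)) * B := mul_le_mul_of_nonneg_right h2 hB0.le
          _ = _ := by ring
      -- (b)
      have hgood : ∀ b ∈ SG, ∀ i : Fin (n + 2), N _ (rest lam (y b ∘ i.succAbove)) := by
        intro b hb i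
        rw [hSG, mem_filter] at hb
        have h1 := hb.2 i
        rw [mem_BadN] at h1
        push Not at h1
        exact her_rest hN (h1 (fun j => (mem_BadN.mp hb.1).1 _))
      have htyp : ∀ i : Fin (n + 2), ((SG.filter (fun b => r ≤ om s (b i))).card : ℝ) ≤
          B ^ (n + 1) * (B * τ) := by
        intro i
        refine card_fiber (n + 1) i B _ (fun b hb => (mem_BadN.mp (mem_filter.mp (mem_filter.mp hb).1).1).1)
          (B * τ) (fun b' => ((SG.filter (fun b => r ≤ om s (b i))).filter
            (fun b => b ∘ i.succAbove = b')).image (fun b => b i)) ?_ ?_ (by positivity)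
        · intro b hb
          refine mem_image_of_mem _ ?_
          rw [mem_filter]
          exact ⟨hb, rfl⟩
        · intro b hb
          have hbG : b ∈ SG := (mem_filter.mp hb).1
          refine H1 (k + (n + 1)) (by omega) (rest lam (y b ∘ i.succAbove)) (hgood b hbG i) (u i) _
            fun x hx => ?_
          rw [mem_image] at hx
          obtain ⟨b2, hb2, rfl⟩ := hx
          rw [mem_filter, mem_filter] at hb2
          obtain ⟨⟨hb2G, hb2r⟩, hb2e⟩ := hb2
          have hb2B : b2 ∈ BadN N lam u B := (mem_filter.mp hb2G).1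
          have h1 := (mem_BadN.mp hb2B).1 i
          refine ⟨h1.1, h1.2, ?_, hb2r⟩
          have h2 := hcoord b2 hb2B i
          have h3 : y b2 ∘ i.succAbove = y b ∘ i.succAbove := by
            funext j
            simp only [hy, Function.comp_apply]
            have := congrFun hb2e j
            simp only [Function.comp_apply] at this
            rw [this]
          rw [h3] at h2
          exact h2
      have hfew : ((SG.filter (fun b => om s (b 0) < r ∧ om s (b 1) < r)).card : ℝ) ≤
          B ^ n * (B * ν) ^ 2 := by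
        have h1 : SG.filter (fun b => om s (b 0) < r ∧ om s (b 1) < r) ⊆
            Fintype.piFinset (Fin.cons (Sm s r B) (Fin.cons (Sm s r B) (fun _ : Fin n => Icc 1 B)) :
              Fin (n + 2) → Finset ℕ) := by
          intro b hb
          rw [mem_filter] at hb
          have hb2 := (mem_BadN.mp (mem_filter.mp hb.1).1).1
          rw [Fintype.mem_piFinset]
          intro i
          refine Fin.cases ?_ (fun i => ?_) i
          · simp only [Fin.cons_zero]
            rw [Sm, mem_filter, mem_Icc]
            exact ⟨hb2 0, hb.2.1⟩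
          · refine Fin.cases ?_ (fun i => ?_) i
            · simp only [Fin.cons_succ, Fin.cons_zero]
              rw [Sm, mem_filter, mem_Icc]
              exact ⟨hb2 1, hb.2.2⟩
            · simp only [Fin.cons_succ]
              rw [mem_Icc]
              exact hb2 _
        have h2 := card_le_card h1
        rw [Fintype.card_piFinset, Fin.prod_univ_succ, Fin.prod_univ_succ] at h2
        simp only [Fin.cons_zero, Fin.cons_succ, prod_const, card_univ, Fintype.card_fin,
          Nat.card_Icc, Nat.add_sub_cancel] at h2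
        have h3 : ((SG.filter (fun b => om s (b 0) < r ∧ om s (b 1) < r)).card : ℝ) ≤
            (Sm s r B).card * ((Sm s r B).card * B ^ n) := by exact_mod_cast h2
        refine h3.trans ?_
        have h4 : (0 : ℝ) ≤ (Sm s r B).card := Nat.cast_nonneg _
        have h5 : ((Sm s r B).card : ℝ) ^ 2 ≤ (B * ν) ^ 2 := pow_le_pow_left₀ h4 H2 2
        calc ((Sm s r B).card : ℝ) * ((Sm s r B).card * B ^ n) = B ^ n * ((Sm s r B).card : ℝ) ^ 2 := by ring
          _ ≤ _ := mul_le_mul_of_nonneg_left h5 (by positivity)
      have hcov : BadN N lam u B ⊆ ((univ : Finset (Fin (n + 2))).biUnion SA) ∪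
          ((SG.filter (fun b => r ≤ om s (b 0))) ∪ ((SG.filter (fun b => r ≤ om s (b 1))) ∪
            (SG.filter (fun b => om s (b 0) < r ∧ om s (b 1) < r)))) := by
        intro b hb
        by_cases h : ∃ i : Fin (n + 2), b ∘ i.succAbove ∈ BadN N lam (u ∘ i.succAbove) B
        · obtain ⟨i, hi⟩ := h
          rw [mem_union, mem_biUnion]
          left
          exact ⟨i, mem_univ _, by rw [hSA, mem_filter]; exact ⟨hb, hi⟩⟩
        · push Not at h
          have hbG : b ∈ SG := by rw [hSG, mem_filter]; exact ⟨hb, h⟩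
          refine mem_union.mpr (Or.inr (mem_union.mpr ?_))
          by_cases h0 : r ≤ om s (b 0)
          · exact Or.inl (mem_filter.mpr ⟨hbG, h0⟩)
          · refine Or.inr (mem_union.mpr ?_)
            by_cases h1 : r ≤ om s (b 1)
            · exact Or.inl (mem_filter.mpr ⟨hbG, h1⟩)
            · exact Or.inr (mem_filter.mpr ⟨hbG, by omega, by omega⟩)
      have hcard : (BadN N lam u B).card ≤ (∑ i, (SA i).card) +
          ((SG.filter (fun b => r ≤ om s (b 0))).card + ((SG.filter (fun b => r ≤ om s (b 1))).card +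
            (SG.filter (fun b => om s (b 0) < r ∧ om s (b 1) < r)).card)) := by
        refine (card_le_card hcov).trans ((card_union_le _ _).trans ?_)
        refine add_le_add card_biUnion_le ((card_union_le _ _).trans ?_)
        exact add_le_add le_rfl (card_union_le _ _)
      have hcardR : ((BadN N lam u B).card : ℝ) ≤ (∑ i, ((SA i).card : ℝ)) +
          (((SG.filter (fun b => r ≤ om s (b 0))).card : ℝ) +
            (((SG.filter (fun b => r ≤ om s (b 1))).card : ℝ) +
              ((SG.filter (fun b => om s (b 0) < r ∧ om s (b 1) < r)).card : ℝ))) := by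
        exact_mod_cast hcard
      refine hcardR.trans ?_
      have hsumA : (∑ i, ((SA i).card : ℝ)) ≤ (n + 2) * (B * (B ^ (n + 1) * ((n + 2).factorial * G))) := by
        refine (Finset.sum_le_card_nsmul _ _ _ fun i _ => hA i).trans ?_
        rw [nsmul_eq_mul, card_univ, Fintype.card_fin]
        push_cast
        exact le_rfl
      have h0 := htyp 0
      have h1 := htyp 1
      have hfac : (((n + 1 + 1 + 1).factorial : ℕ) : ℝ) = (n + 3) * (n + 2).factorial := by
        rw [Nat.factorial_succ]; push_cast; ring
      have hfac1 : (1 : ℝ) ≤ (n + 2).factorial := by exact_mod_cast Nat.factorial_pos _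
      rw [hfac]
      have hBn : (0 : ℝ) ≤ (B : ℝ) ^ (n + 2) := by positivity
      calc (∑ i, ((SA i).card : ℝ)) + (((SG.filter (fun b => r ≤ om s (b 0))).card : ℝ) +
            (((SG.filter (fun b => r ≤ om s (b 1))).card : ℝ) +
              ((SG.filter (fun b => om s (b 0) < r ∧ om s (b 1) < r)).card : ℝ)))
          ≤ (n + 2) * (B * (B ^ (n + 1) * ((n + 2).factorial * G))) +
            (B ^ (n + 1) * (B * τ) + (B ^ (n + 1) * (B * τ) + B ^ n * (B * ν) ^ 2)) := by
            linarith
        _ = B ^ (n + 2) * ((n + 2) * ((n + 2).factorial * G) + (2 * τ + ν ^ 2)) := by ring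
        _ ≤ B ^ (n + 2) * ((n + 2) * ((n + 2).factorial * G) + (n + 2).factorial * G) := by
            apply mul_le_mul_of_nonneg_left _ hBn
            have : G ≤ (n + 2).factorial * G := by nlinarith
            linarith
        _ = B ^ (n + 1 + 1) * ((n + 3) * (n + 2).factorial * G) := by ring

end MP60829e.AC
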