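import Mathlib

/-! Polynomials of bounded additive complexity. -/

open MvPolynomial

namespace MP60829e.AC

/-- `p` is a constant times a product of powers of the variables and of the polynomials `s j`
with `j < i`. -/
def IsMon {ι K : Type} [Field K] {a : ℕ} (s : Fin a → MvPolynomial ι K) (i : ℕ)
    (p : MvPolynomial ι K) : Prop :=
  ∃ (e : ι →₀ ℕ) (c : K) (e' : Fin a → ℕ), (∀ j : Fin a, i ≤ j → e' j = 0) ∧
    p = monomial e c * ∏ j, s j ^ e' j

/-- `f` is computed by a program with `a` additions all of whose results have total degree at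
most `D`: there are polynomials `s 0, ..., s (a - 1)`, each of them the sum of two monomials in the
variables and the preceding ones, and `f` is a monomial in the variables and `s 0, ..., s (a - 1)`. -/
def Cx {ι K : Type} [Field K] (a : ℕ) (D : ℕ∞) (f : MvPolynomial ι K) : Prop :=
  ∃ s : Fin a → MvPolynomial ι K,
    (∀ i : Fin a, ((s i).totalDegree : ℕ∞) ≤ D ∧
      ∃ p q, IsMon s i p ∧ IsMon s i q ∧ s i = p + q) ∧
    (f.totalDegree : ℕ∞) ≤ D ∧ IsMon s a f

/-- The numbers `x i` satisfy no nonzero relation over the algebraic numbers that is computed with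
`a` additions within total degree `D`. -/
def NoCx {ι : Type} (a : ℕ) (D : ℕ∞) (x : ι → ℂ) : Prop :=
  ∀ f : MvPolynomial ι (algebraicClosure ℚ ℂ), f ≠ 0 → Cx a D f → aeval x f ≠ 0

end MP60829e.AC
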