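import Mathlib
import Pool.Agent.Lib.MP_60829e_nt.AC.Defs
import Pool.Agent.Lib.MP_60829e_nt.DensMain

/-! Elementary properties of the classes of polynomials of bounded additive complexity. -/

open MvPolynomial Finset

namespace MP60829e.AC

open MP60829e.Dens (QA isAlgClosed_QA)

section map

variable {ι ι' K : Type} [Field K]

/-- the monomials with coefficient -/
def Mono (ι K : Type) [Field K] : Submonoid (MvPolynomial ι K) where
  carrier := {p | ∃ e c, p = monomial e c}
  one_mem' := ⟨0, 1, rfl⟩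
  mul_mem' := by
    rintro _ _ ⟨e, c, rfl⟩ ⟨e', c', rfl⟩
    exact ⟨e + e', c * c', by rw [monomial_mul]⟩

/-- substitutions of constants or variables for the variables -/
def Small (φ : MvPolynomial ι K →ₐ[K] MvPolynomial ι' K) : Prop :=
  ∀ v, ∃ e c, φ (X v) = monomial e c ∧ (φ (X v)).totalDegree ≤ 1

theorem map_mono {φ : MvPolynomial ι K →ₐ[K] MvPolynomial ι' K} (hφ : Small φ) (e : ι →₀ ℕ) (c : K) :
    ∃ e' c', φ (monomial e c) = monomial e' c' := by
  have h1 : φ (monomial e c) ∈ Mono ι' K := by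
    rw [monomial_eq, map_mul, Finsupp.prod, map_prod]
    refine mul_mem ?_ (prod_mem fun v _ => ?_)
    · refine ⟨0, c, ?_⟩
      have : (C c : MvPolynomial ι K) = algebraMap K _ c := rfl
      rw [this, AlgHom.commutes]
      rfl
    · rw [map_pow]
      refine pow_mem ?_ _
      obtain ⟨e, c, h, _⟩ := hφ v
      exact ⟨e, c, h⟩
  exact h1

theorem totalDegree_map_le {φ : MvPolynomial ι K →ₐ[K] MvPolynomial ι' K} (hφ : Small φ)
    (p : MvPolynomial ι K) : (φ p).totalDegree ≤ p.totalDegree := by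
  conv_lhs => rw [p.as_sum]
  rw [map_sum]
  refine totalDegree_finsetSum_le fun d hd => ?_
  rw [monomial_eq, map_mul, Finsupp.prod, map_prod]
  refine (totalDegree_mul _ _).trans ?_
  have h0 : (C (coeff d p) : MvPolynomial ι K) = algebraMap K _ (coeff d p) := rfl
  have h1 : (φ (C (coeff d p))).totalDegree = 0 := by
    rw [h0, AlgHom.commutes]
    exact totalDegree_C _
  rw [h1, zero_add]
  refine (totalDegree_finsetProd _ _).trans ?_
  refine le_trans ?_ (le_totalDegree hd)
  refine Finset.sum_le_sum fun i _ => ?_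
  rw [map_pow]
  refine (totalDegree_pow _ _).trans ?_
  obtain ⟨_, _, _, h2⟩ := hφ i
  calc d i * _ ≤ d i * 1 := Nat.mul_le_mul_left _ h2
    _ = d i := mul_one _

theorem IsMon.map {φ : MvPolynomial ι K →ₐ[K] MvPolynomial ι' K} (hφ : Small φ) {a : ℕ}
    {s : Fin a → MvPolynomial ι K} {i : ℕ} {p : MvPolynomial ι K} (h : IsMon s i p) :
    IsMon (fun j => φ (s j)) i (φ p) := by
  obtain ⟨e, c, e', he', rfl⟩ := h
  obtain ⟨e2, c2, h2⟩ := map_mono hφ e c
  exact ⟨e2, c2, e', he', by rw [map_mul, h2, map_prod]; simp only [map_pow]⟩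

theorem Cx.map {φ : MvPolynomial ι K →ₐ[K] MvPolynomial ι' K} (hφ : Small φ) {a : ℕ} {D : ℕ∞}
    {f : MvPolynomial ι K} (h : Cx a D f) : Cx a D (φ f) := by
  obtain ⟨s, hs, hd, hm⟩ := h
  refine ⟨fun j => φ (s j), fun i => ⟨?_, ?_⟩, ?_, hm.map hφ⟩
  · exact le_trans (by exact_mod_cast totalDegree_map_le hφ (s i)) (hs i).1
  · obtain ⟨p, q, hp, hq, h⟩ := (hs i).2
    exact ⟨φ p, φ q, hp.map hφ, hq.map hφ, by show φ (s i) = _; rw [h, map_add]⟩
  · exact le_trans (by exact_mod_cast totalDegree_map_le hφ f) hd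

/-- an intermediate result of a program -/
theorem Cx.step {a : ℕ} {D : ℕ∞} {s : Fin a → MvPolynomial ι K}
    (hs : ∀ i : Fin a, ((s i).totalDegree : ℕ∞) ≤ D ∧
      ∃ p q, IsMon s i p ∧ IsMon s i q ∧ s i = p + q) (i : Fin a) : Cx a D (s i) := by
  classical
  refine ⟨s, hs, (hs i).1, 0, 1, Pi.single i 1, ?_, ?_⟩
  · intro j hj
    exact absurd j.2 (by omega)
  · have h1 : (monomial (0 : ι →₀ ℕ) (1 : K)) = 1 := rfl
    rw [h1, one_mul, Finset.prod_eq_single i]
    · rw [Pi.single_eq_same, pow_one]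
    · intro j _ hj
      rw [Pi.single_eq_of_ne hj, pow_zero]
    · intro h; exact absurd (mem_univ _) h

theorem cx_X (a : ℕ) (D : ℕ∞) (hD : 1 ≤ D) (v : ι) : Cx a D (X v : MvPolynomial ι K) := by
  have h0 : IsMon (fun _ : Fin a => (0 : MvPolynomial ι K)) 0 0 := by
    refine ⟨0, 0, fun _ => 0, fun _ _ => rfl, ?_⟩
    rw [map_zero, zero_mul]
  refine ⟨fun _ => 0, fun i => ⟨?_, 0, 0, ?_, ?_, (add_zero 0).symm⟩, ?_, ?_⟩
  · rw [totalDegree_zero, Nat.cast_zero]
    exact bot_le
  · exact ⟨0, 0, fun _ => 0, fun _ _ => rfl, by rw [map_zero, zero_mul]⟩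
  · exact ⟨0, 0, fun _ => 0, fun _ _ => rfl, by rw [map_zero, zero_mul]⟩
  · rw [totalDegree_X]
    exact_mod_cast hD
  · refine ⟨Finsupp.single v 1, 1, fun _ => 0, fun _ _ => rfl, ?_⟩
    simp only [pow_zero, prod_const_one, mul_one]
    rfl

end map

theorem NoCx.comp_inj {ι ι' : Type} {a : ℕ} {D : ℕ∞} {y : ι' → ℂ} (hy : NoCx a D y) (e : ι → ι')
    (he : Function.Injective e) : NoCx a D (y ∘ e) := by
  intro f hf hc h0
  refine hy (rename e f) ?_ (Cx.map (φ := rename e) ?_ hc) ?_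
  · intro h
    apply hf
    apply rename_injective e he
    rw [h, map_zero]
  · intro v
    rw [rename_X]
    exact ⟨Finsupp.single (e v) 1, 1, rfl, (totalDegree_X _).le⟩
  · rw [aeval_rename]
    exact h0

/-- specialisation of the last variable -/
theorem exists_special {k : ℕ} {a : ℕ} {D : ℕ∞} {lam : Fin k → ℂ} (hlam : NoCx a D lam)
    {f : MvPolynomial (Fin k ⊕ Fin 1) QA} (hf : f ≠ 0) (hc : Cx a D f) :
    ∃ q : QA, aeval (Sum.elim lam fun _ : Fin 1 => (q : ℂ)) f ≠ 0 := by
  have hinf : Infinite QA := inferInstance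
  obtain ⟨z, hz⟩ : ∃ z : Fin k ⊕ Fin 1 → QA, eval z f ≠ 0 := by
    by_contra hcon
    push Not at hcon
    exact hf (MvPolynomial.funext fun x => by rw [hcon x, map_zero])
  set q := z (Sum.inr 0) with hq
  let φ : MvPolynomial (Fin k ⊕ Fin 1) QA →ₐ[QA] MvPolynomial (Fin k) QA :=
    aeval (Sum.elim X fun _ => C q)
  have hφ : Small φ := by
    intro v
    rcases v with v | v
    · have h1 : φ (X (Sum.inl v)) = X v := by
        show aeval _ _ = _
        rw [aeval_X]; rfl
      rw [h1]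
      exact ⟨Finsupp.single v 1, 1, rfl, (totalDegree_X _).le⟩
    · have h1 : φ (X (Sum.inr v)) = C q := by
        show aeval _ _ = _
        rw [aeval_X]; rfl
      rw [h1]
      exact ⟨0, q, rfl, by rw [totalDegree_C]; exact Nat.zero_le _⟩
  refine ⟨q, ?_⟩
  have h1 : φ f ≠ 0 := by
    intro h0
    apply hz
    have h2 : (aeval (fun v => z (Sum.inl v)) : MvPolynomial (Fin k) QA →ₐ[QA] QA).comp φ =
        aeval z := by
      apply MvPolynomial.algHom_ext
      intro v
      rcases v with v | v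
      · simp [φ]
      · have hv : v = 0 := Subsingleton.elim _ _
        subst hv
        simp [φ, hq]
    have h3 := congrArg (fun ψ => ψ f) h2
    simp only [AlgHom.comp_apply] at h3
    rw [h0, map_zero] at h3
    rw [← coe_aeval_eq_eval]
    exact h3.symm
  have h2 := hlam (φ f) h1 (hc.map hφ)
  have h3 : (aeval lam : MvPolynomial (Fin k) QA →ₐ[QA] ℂ).comp φ =
      aeval (Sum.elim lam fun _ : Fin 1 => (q : ℂ)) := by
    apply MvPolynomial.algHom_ext
    intro v
    rcases v with v | v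
    · simp [φ]
    · simp [φ]
  have h4 := congrArg (fun ψ => ψ f) h3
  simp only [AlgHom.comp_apply] at h4
  rw [← h4]
  exact h2

end MP60829e.AC
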