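import Mathlib
import Pool.Agent.Lib.MP_60829e_nt.AC.Basic

/-! Counting points with coordinates in a finite set on sets of bounded transcendence degree. -/

open MvPolynomial Finset

namespace MP60829e.AC

/-- any `N + 1` coordinates satisfy on `S` a nonzero relation of degree at most `d` -/
def DepOn (F : Type) [Field F] (e N d : ℕ) (S : Set (Fin e → F)) : Prop :=
  ∀ i : Fin (N + 1) → Fin e, Function.Injective i → ∃ Φ : MvPolynomial (Fin (N + 1)) F,
    Φ ≠ 0 ∧ Φ.totalDegree ≤ d ∧ ∀ c ∈ S, eval (c ∘ i) Φ = 0

/-- the first variable is specialised -/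
noncomputable def spc {F : Type} [Field F] {n : ℕ} (a : F) :
    MvPolynomial (Fin (n + 1)) F →ₐ[F] MvPolynomial (Fin n) F := aeval (Fin.cons (C a) X)

theorem small_spc {F : Type} [Field F] {n : ℕ} (a : F) :
    Small (spc a : MvPolynomial (Fin (n + 1)) F →ₐ[F] MvPolynomial (Fin n) F) := by
  intro v
  refine Fin.cases ?_ (fun v => ?_) v
  · have h1 : (spc a : MvPolynomial (Fin (n + 1)) F →ₐ[F] MvPolynomial (Fin n) F) (X 0) = C a := by
      show aeval _ _ = _
      rw [aeval_X, Fin.cons_zero]
    rw [h1]
    exact ⟨0, a, rfl, by rw [totalDegree_C]; exact Nat.zero_le _⟩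
  · have h1 : (spc a : MvPolynomial (Fin (n + 1)) F →ₐ[F] MvPolynomial (Fin n) F) (X v.succ) = X v := by
      show aeval _ _ = _
      rw [aeval_X, Fin.cons_succ]
    rw [h1]
    exact ⟨Finsupp.single v 1, 1, rfl, (totalDegree_X _).le⟩

theorem eval_spc {F : Type} [Field F] {n : ℕ} (a : F) (x : Fin n → F)
    (p : MvPolynomial (Fin (n + 1)) F) : eval x (spc a p) = eval (Fin.cons a x : Fin (n + 1) → F) p := by
  have h : (aeval x : MvPolynomial (Fin n) F →ₐ[F] F).comp (spc a) =
      aeval (Fin.cons a x : Fin (n + 1) → F) := by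
    apply MvPolynomial.algHom_ext
    intro v
    refine Fin.cases ?_ (fun v => ?_) v
    · simp [spc]
    · simp [spc]
  have h2 := congrArg (fun φ => φ p) h
  simp only [AlgHom.comp_apply] at h2
  simpa [aeval_eq_eval] using h2

/-- few specialisations of a nonzero polynomial vanish -/
theorem card_spc_eq_zero {F : Type} [Field F] [DecidableEq F] {n : ℕ} (p : MvPolynomial (Fin (n + 1)) F) (hp : p ≠ 0)
    (X : Finset F) (hX : ∀ a ∈ X, spc a p = 0) : X.card ≤ p.totalDegree := by
  classical
  set q : Polynomial (MvPolynomial (Fin n) F) := finSuccEquiv F n p with hq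
  have hq0 : q ≠ 0 := by
    rw [hq]
    exact (map_ne_zero_iff _ (finSuccEquiv F n).injective).mpr hp
  have hev : ∀ a : F, Polynomial.eval (C a) q = spc a p := by
    intro a
    have h : ((Polynomial.evalRingHom (C a : MvPolynomial (Fin n) F)).comp
        (finSuccEquiv F n : MvPolynomial (Fin (n + 1)) F →+* Polynomial (MvPolynomial (Fin n) F))) =
        (spc a : MvPolynomial (Fin (n + 1)) F →ₐ[F] MvPolynomial (Fin n) F).toRingHom := by
      apply MvPolynomial.ringHom_ext
      · intro r
        simp [spc, finSuccEquiv_apply]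
      · intro v
        refine Fin.cases ?_ (fun v => ?_) v
        · simp [spc, finSuccEquiv_apply]
        · simp [spc, finSuccEquiv_apply]
    exact congrArg (fun φ => φ p) h
  have h1 : X.image (fun a => (C a : MvPolynomial (Fin n) F)) ⊆ q.roots.toFinset := by
    intro z hz
    rw [mem_image] at hz
    obtain ⟨a, ha, rfl⟩ := hz
    rw [Multiset.mem_toFinset, Polynomial.mem_roots hq0, Polynomial.IsRoot.def, hev]
    exact hX a ha
  have h2 := card_le_card h1
  rw [card_image_of_injective _ (C_injective (Fin n) F)] at h2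
  refine h2.trans ((Multiset.toFinset_card_le _).trans ((Polynomial.card_roots' q).trans ?_))
  rw [hq, natDegree_finSuccEquiv]
  exact degreeOf_le_totalDegree _ _

theorem count_dep (d : ℕ) : ∀ e N : ℕ, ∃ C : ℕ, ∀ (F : Type) [Field F] [DecidableEq F] (A : Finset F),
    A.Nonempty → ∀ S : Finset (Fin e → F), (∀ c ∈ S, ∀ i, c i ∈ A) → DepOn F e N d (S : Set (Fin e → F)) →
      S.card ≤ C * A.card ^ N := by
  classical
  intro e
  induction e with
  | zero =>
    intro N
    refine ⟨1, fun F _ _ A hA S _ _ => ?_⟩
    have h1 : S.card ≤ 1 := Finset.card_le_one.mpr fun a _ b _ => Subsingleton.elim _ _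
    have h2 : 1 ≤ A.card ^ N := Nat.one_le_pow _ _ hA.card_pos
    omega
  | succ e ih =>
    intro N
    obtain ⟨C1, hC1⟩ := ih N
    obtain ⟨C2, hC2⟩ := ih (N - 1)
    -- fibres
    have hfib : ∀ (F : Type) [Field F] [DecidableEq F] (A : Finset F) (S : Finset (Fin (e + 1) → F)),
        (∀ c ∈ S, ∀ i, c i ∈ A) → S.card = ∑ a ∈ A, ((S.filter (fun c => c 0 = a)).image
          (fun c => c ∘ Fin.succ)).card := by
      intro F _ _ A S hS
      rw [Finset.card_eq_sum_card_fiberwise (f := fun c => c 0) (t := A) (fun c hc => hS c hc 0)]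
      refine Finset.sum_congr rfl fun a _ => ?_
      rw [Finset.card_image_of_injOn]
      intro c hc c' hc' h
      rw [mem_coe, mem_filter] at hc hc'
      funext i
      refine Fin.cases ?_ (fun i => ?_) i
      · rw [hc.2, hc'.2]
      · exact congrFun h i
    have hmemA : ∀ (F : Type) [Field F] [DecidableEq F] (A : Finset F) (S : Finset (Fin (e + 1) → F)),
        (∀ c ∈ S, ∀ i, c i ∈ A) → ∀ a, ∀ c ∈ ((S.filter (fun c => c 0 = a)).image
          (fun c => c ∘ Fin.succ)), ∀ i, c i ∈ A := by
      intro F _ _ A S hS a c hc i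
      rw [mem_image] at hc
      obtain ⟨c', hc', rfl⟩ := hc
      exact hS c' (mem_filter.mp hc').1 _
    have hdep1 : ∀ (F : Type) [Field F] [DecidableEq F] (S : Finset (Fin (e + 1) → F)),
        DepOn F (e + 1) N d (S : Set (Fin (e + 1) → F)) → ∀ a,
        DepOn F e N d (((S.filter (fun c => c 0 = a)).image (fun c => c ∘ Fin.succ) :
          Finset (Fin e → F)) : Set (Fin e → F)) := by
      intro F _ _ S hS a i hi
      obtain ⟨Φ, h1, h2, h3⟩ := hS (fun l => (i l).succ) ((Fin.succ_injective _).comp hi)
      refine ⟨Φ, h1, h2, fun c hc => ?_⟩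
      rw [mem_coe, mem_image] at hc
      obtain ⟨c', hc', rfl⟩ := hc
      exact h3 c' (mem_filter.mp hc').1
    rcases N with _ | N
    · -- N = 0
      refine ⟨d * C1, fun F _ _ A hA S hS hdep => ?_⟩
      obtain ⟨Φ, h1, h2, h3⟩ := hdep (fun _ => 0) (fun a b _ => Subsingleton.elim (α := Fin 1) _ _)
      set Y : Finset F := A.filter (fun a => ∃ c ∈ S, c 0 = a) with hY
      have hYc : Y.card ≤ d := by
        refine le_trans (card_spc_eq_zero Φ h1 Y fun a ha => ?_) h2
        rw [hY, mem_filter] at ha
        obtain ⟨_, c, hc, hca⟩ := ha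
        have h4 := h3 c hc
        have h5 : spc a Φ = C (eval (fun i => i.elim0) (spc a Φ)) := by
          obtain ⟨r, hr⟩ := C_surjective (Fin 0) (spc a Φ)
          rw [← hr, eval_C]
        rw [h5, eval_spc]
        have h6 : (Fin.cons a (fun i : Fin 0 => i.elim0) : Fin (0 + 1) → F) = c ∘ (fun _ => 0) := by
          funext i
          have : i = 0 := Fin.ext (by have := i.2; omega)
          subst this
          rw [Fin.cons_zero]
          exact hca.symm
        rw [h6, h4, C_0]
      rw [hfib F A S hS, pow_zero, mul_one]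
      have h4 : ∑ a ∈ A, ((S.filter (fun c => c 0 = a)).image (fun c => c ∘ Fin.succ)).card =
          ∑ a ∈ Y, ((S.filter (fun c => c 0 = a)).image (fun c => c ∘ Fin.succ)).card := by
        symm
        apply Finset.sum_subset (filter_subset _ _)
        intro a haA haY
        rw [card_eq_zero, image_eq_empty, filter_eq_empty_iff]
        intro c hc hca
        exact haY (mem_filter.mpr ⟨haA, c, hc, hca⟩)
      rw [h4]
      refine (Finset.sum_le_card_nsmul Y _ C1 fun a _ => ?_).trans ?_
      · have h5 := hC1 F A hA _ (hmemA F A S hS a) (hdep1 F S hdep a)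
        simpa using h5
      · rw [nsmul_eq_mul]
        exact Nat.mul_le_mul_right _ hYc
    · -- N + 1
      refine ⟨C2 + Fintype.card (Fin (N + 1) → Fin e) * d * C1, fun F _ _ A hA S hS hdep => ?_⟩
      have hex : ∀ J : Fin (N + 1) → Fin e, ∃ Φ : MvPolynomial (Fin (N + 1 + 1)) F,
          Φ ≠ 0 ∧ Φ.totalDegree ≤ d ∧ (Function.Injective J → ∀ c ∈ S,
            eval (c ∘ (Fin.cons 0 (fun l => (J l).succ) : Fin (N + 1 + 1) → Fin (e + 1))) Φ = 0) := by
        intro J
        by_cases hJ : Function.Injective J
        · have hinj : Function.Injective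
              (Fin.cons 0 (fun l => (J l).succ) : Fin (N + 1 + 1) → Fin (e + 1)) := by
            rw [Fin.cons_injective_iff]
            refine ⟨?_, (Fin.succ_injective _).comp hJ⟩
            rintro ⟨l, hl⟩
            exact Fin.succ_ne_zero _ hl
          obtain ⟨Φ, h1, h2, h3⟩ := hdep _ hinj
          exact ⟨Φ, h1, h2, fun _ => h3⟩
        · exact ⟨1, one_ne_zero, by rw [totalDegree_one]; exact Nat.zero_le _, fun h => absurd h hJ⟩
      choose Φ hΦ0 hΦd hΦ using hex
      set Y : Finset F := A.filter (fun a => ∃ J, spc a (Φ J) = 0) with hY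
      have hYc : Y.card ≤ Fintype.card (Fin (N + 1) → Fin e) * d := by
        have h1 : Y ⊆ univ.biUnion (fun J => A.filter (fun a => spc a (Φ J) = 0)) := by
          intro a ha
          rw [hY, mem_filter] at ha
          obtain ⟨haA, J, hJ⟩ := ha
          rw [mem_biUnion]
          exact ⟨J, mem_univ _, mem_filter.mpr ⟨haA, hJ⟩⟩
        refine (card_le_card h1).trans (card_biUnion_le.trans ?_)
        refine (Finset.sum_le_card_nsmul _ _ d fun J _ => ?_).trans ?_
        · exact (card_spc_eq_zero (Φ J) (hΦ0 J) _ (fun a ha => (mem_filter.mp ha).2)).trans (hΦd J)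
        · rw [nsmul_eq_mul, card_univ]
          exact le_rfl
      rw [hfib F A S hS, ← Finset.sum_filter_add_sum_filter_not A (fun a => ∃ J, spc a (Φ J) = 0)]
      have h1 : ∑ a ∈ A.filter (fun a => ∃ J, spc a (Φ J) = 0),
          ((S.filter (fun c => c 0 = a)).image (fun c => c ∘ Fin.succ)).card ≤
          Fintype.card (Fin (N + 1) → Fin e) * d * (C1 * A.card ^ (N + 1)) := by
        refine (Finset.sum_le_card_nsmul _ _ (C1 * A.card ^ (N + 1)) fun a _ => ?_).trans ?_
        · exact hC1 F A hA _ (hmemA F A S hS a) (hdep1 F S hdep a)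
        · rw [nsmul_eq_mul]
          exact Nat.mul_le_mul_right _ hYc
      have h2 : ∑ a ∈ A.filter (fun a => ¬ ∃ J, spc a (Φ J) = 0),
          ((S.filter (fun c => c 0 = a)).image (fun c => c ∘ Fin.succ)).card ≤
          A.card * (C2 * A.card ^ N) := by
        refine (Finset.sum_le_card_nsmul _ _ (C2 * A.card ^ N) fun a ha => ?_).trans ?_
        · rw [mem_filter] at ha
          have hne := ha.2
          push Not at hne
          refine hC2 F A hA _ (hmemA F A S hS a) ?_
          intro J hJ
          refine ⟨spc a (Φ J), hne J, (totalDegree_map_le (small_spc a) _).trans (hΦd J), ?_⟩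
          intro c hc
          rw [mem_coe, mem_image] at hc
          obtain ⟨c', hc', rfl⟩ := hc
          rw [mem_filter] at hc'
          rw [eval_spc]
          have h3 := hΦ J hJ c' hc'.1
          rw [← h3]
          congr 1
          congr 1
          funext l
          refine Fin.cases ?_ (fun l => ?_) l
          · simp only [Fin.cons_zero, Function.comp_apply]
            exact hc'.2.symm
          · simp only [Fin.cons_succ, Function.comp_apply]
        · rw [nsmul_eq_mul]
          exact Nat.mul_le_mul_right _ (card_le_card (filter_subset _ _))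
      calc _ ≤ Fintype.card (Fin (N + 1) → Fin e) * d * (C1 * A.card ^ (N + 1)) +
            A.card * (C2 * A.card ^ N) := add_le_add h1 h2
        _ = (C2 + Fintype.card (Fin (N + 1) → Fin e) * d * C1) * A.card ^ (N + 1) := by ring

end MP60829e.AC
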