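import Mathlib
import Pool.Agent.Lib.MP_60829e_nt.PS.DDer
import Pool.Agent.Lib.MP_60829e_nt.DensMain

/-! A derivation whose constants are exactly the elements of the (algebraically closed) base
field. -/

open Polynomial

namespace MP60829e.AC

section

variable {K M : Type*} [Field K] [CharZero K] [Field M] [Algebra K M]

/-- a derivation vanishing on `S` vanishes on everything algebraic over `K(S)`. -/
theorem der_eq_zero_of_alg (D : Derivation K M M) (S : Set M) (hS : ∀ x ∈ S, D x = 0) {c : M}
    (hc : IsAlgebraic (IntermediateField.adjoin K S) c) : D c = 0 := by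
  have hchar : CharZero (IntermediateField.adjoin K S) :=
    charZero_of_injective_algebraMap (algebraMap K _).injective
  let F : IntermediateField K M :=
    { carrier := {x | D x = 0}
      mul_mem' := fun {x y} hx hy => by
        simp only [Set.mem_ofPred_eq] at hx hy ⊢
        rw [Derivation.leibniz, hx, hy, smul_zero, smul_zero, add_zero]
      add_mem' := fun {x y} hx hy => by
        simp only [Set.mem_ofPred_eq] at hx hy ⊢
        rw [map_add, hx, hy, add_zero]
      algebraMap_mem' := fun r => by
        simp only [Set.mem_ofPred_eq]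
        exact D.map_algebraMap r
      inv_mem' := fun x hx => by
        simp only [Set.mem_ofPred_eq] at hx ⊢
        rw [Derivation.leibniz_inv, hx, smul_zero] }
  have hle : IntermediateField.adjoin K S ≤ F := IntermediateField.adjoin_le_iff.mpr hS
  let D' : Derivation ℤ M M := D.restrictScalars ℤ
  exact MP60829e.PS.derivation_eq_zero_of_isAlgebraic D' (fun a => hle a.2) hc

theorem exists_finset_isAlgebraic {S : Set M} {c : M}
    (hc : IsAlgebraic (IntermediateField.adjoin K S) c) :
    ∃ T : Finset M, (T : Set M) ⊆ S ∧ IsAlgebraic (IntermediateField.adjoin K (T : Set M)) c := by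
  classical
  obtain ⟨p, hp0, hp⟩ := hc
  choose T hTS hT using fun k => IntermediateField.exists_finset_of_mem_adjoin (p.coeff k).2
  set U : Finset M := p.support.biUnion T with hU
  have hUS : (U : Set M) ⊆ S := by
    intro x hx
    rw [hU, Finset.mem_coe, Finset.mem_biUnion] at hx
    obtain ⟨k, _, hk⟩ := hx
    exact hTS k hk
  have hcoef : ∀ k, (p.coeff k : M) ∈ IntermediateField.adjoin K (U : Set M) := by
    intro k
    by_cases hk : k ∈ p.support
    · refine IntermediateField.adjoin.mono K _ _ ?_ (hT k)
      intro x hx
      rw [hU, Finset.mem_coe, Finset.mem_biUnion]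
      exact ⟨k, hk, hx⟩
    · rw [notMem_support_iff] at hk
      rw [hk]
      exact zero_mem _
  have hl : (p.map (algebraMap (IntermediateField.adjoin K S) M)) ∈
      lifts (algebraMap (IntermediateField.adjoin K (U : Set M)) M) := by
    rw [lifts_iff_coeff_lifts]
    intro k
    rw [coeff_map]
    exact ⟨⟨_, hcoef k⟩, rfl⟩
  rw [mem_lifts] at hl
  obtain ⟨q, hq⟩ := hl
  refine ⟨U, hUS, q, ?_, ?_⟩
  · rintro rfl
    rw [Polynomial.map_zero] at hq
    exact hp0 ((Polynomial.map_eq_zero _).mp hq.symm)
  · rw [aeval_def, ← eval_map, hq, eval_map, ← aeval_def]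
    exact hp

theorem exists_der [IsAlgClosed K] {ι : Type*} (b : ι → M) (hb : IsTranscendenceBasis K b)
    (e : ι × ℕ ≃ ι) : ∃ D : Derivation K M M, ∀ x, D x = 0 → x ∈ Set.range (algebraMap K M) := by
  classical
  have halg : ∀ c : M, IsAlgebraic (IntermediateField.adjoin K (Set.range b)) c := by
    intro c
    have := hb.isAlgebraic_field
    exact Algebra.IsAlgebraic.isAlgebraic c
  have hext : ∀ D1 D2 : Derivation K M M, (∀ i, D1 (b i) = D2 (b i)) → D1 = D2 := by
    intro D1 D2 h
    ext c
    have h1 := der_eq_zero_of_alg (D1 - D2) (Set.range b) (by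
      rintro _ ⟨i, rfl⟩
      rw [Derivation.sub_apply, h, sub_self]) (halg c)
    rw [Derivation.sub_apply] at h1
    exact sub_eq_zero.mp h1
  obtain ⟨D, hD⟩ := MP60829e.PS.exists_derivation_of_algebraicIndependent hb.1
    (fun i => b (e ((e.symm i).1, (e.symm i).2 + 1)))
  choose δ hδ using fun j : ι => MP60829e.PS.exists_derivation_of_algebraicIndependent hb.1
    (fun i => if i = j then (1 : M) else 0)
  have hcomm : ∀ s n, ⁅δ (e (s, n + 1)), D⁆ = δ (e (s, n)) := by
    intro s n
    apply hext
    intro l
    rw [Derivation.commutator_apply, hD, hδ, hδ, hδ]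
    have h1 : D (if l = e (s, n + 1) then (1 : M) else 0) = 0 := by
      split_ifs
      · exact D.map_one_eq_zero
      · exact map_zero _
    rw [h1, sub_zero]
    have h2 : e ((e.symm l).1, (e.symm l).2 + 1) = e (s, n + 1) ↔ l = e (s, n) := by
      rw [e.injective.eq_iff, Prod.mk.injEq, add_left_inj, ← Prod.mk.injEq, Prod.mk.eta,
        Equiv.symm_apply_eq]
    simp only [h2]
  refine ⟨D, fun c hc => ?_⟩
  obtain ⟨T, hTS, hT⟩ := exists_finset_isAlgebraic (halg c)
  have hbinj : Function.Injective b := hb.1.injective
  have hout : ∀ i, b i ∉ T → δ i c = 0 := by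
    intro i hi
    refine der_eq_zero_of_alg (δ i) T ?_ hT
    intro x hx
    obtain ⟨j, rfl⟩ := hTS hx
    rw [hδ, if_neg]
    rintro rfl
    exact hi hx
  have hall : ∀ i, δ i c = 0 := by
    intro i
    obtain ⟨⟨s, n⟩, rfl⟩ := e.surjective i
    have hfin : {n : ℕ | b (e (s, n)) ∈ T}.Finite := by
      apply Set.Finite.preimage (f := fun n => b (e (s, n))) _ T.finite_toSet
      intro n _ n' _ h
      have := e.injective (hbinj h)
      simpa using this
    obtain ⟨n0, hn0⟩ := hfin.bddAbove
    have key : ∀ m n, n0 < n + m → δ (e (s, n)) c = 0 := by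
      intro m
      induction m with
      | zero =>
        intro n hn
        apply hout
        intro hmem
        have := hn0 hmem
        omega
      | succ m ih =>
        intro n hn
        rw [← hcomm s n, Derivation.commutator_apply, hc, map_zero, ih (n + 1) (by omega),
          map_zero, sub_zero]
    exact key (n0 + 1) n (by omega)
  apply MP60829e.PS.mem_range_of_forall_derivation
  intro D'
  set J : Finset ι := T.preimage b hbinj.injOn with hJ
  have hsum : ∀ x, (∑ i ∈ J, D' (b i) • δ i) x = ∑ i ∈ J, D' (b i) * δ i x := by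
    intro x
    have h := congrFun (map_sum (Derivation.coeFnAddMonoidHom (R := K) (A := M) (M := M))
      (fun i => D' (b i) • δ i) J) x
    rw [Finset.sum_apply] at h
    exact h
  have h1 := der_eq_zero_of_alg (D' - ∑ i ∈ J, D' (b i) • δ i) T (by
    intro x hx
    obtain ⟨j, rfl⟩ := hTS hx
    rw [Derivation.sub_apply, hsum, Finset.sum_eq_single j]
    · rw [hδ, if_pos rfl, mul_one, sub_self]
    · intro i _ hij
      rw [hδ, if_neg (Ne.symm hij), mul_zero]
    · intro hj
      exact absurd (by rw [hJ, Finset.mem_preimage]; exact hx) hj) hT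
  rw [Derivation.sub_apply, hsum, Finset.sum_eq_zero, sub_zero] at h1
  · exact h1
  · intro i _
    rw [hall, mul_zero]

/-- Wronskian criterion. -/
theorem jets_indep (D : Derivation K M M) (hD : ∀ x, D x = 0 → x ∈ Set.range (algebraMap K M)) :
    ∀ (m : ℕ) (w : Fin m → M), LinearIndependent K w →
      LinearIndependent M (fun i : Fin m => fun j : Fin m => D^[(j : ℕ)] (w i)) := by
  intro m
  induction m with
  | zero => intro w _; exact linearIndependent_empty_type
  | succ m ih =>
    intro w hw
    rw [Fintype.linearIndependent_iff]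
    intro c hc
    have hrel : ∀ j : ℕ, j ≤ m → ∑ i, c i * D^[j] (w i) = 0 := by
      intro j hj
      have h1 := congrFun hc ⟨j, by omega⟩
      simpa [Finset.sum_apply] using h1
    have hw' : LinearIndependent K (w ∘ Fin.castSucc) := hw.comp _ (Fin.castSucc_injective m)
    have hih := ih (w ∘ Fin.castSucc) hw'
    rw [Fintype.linearIndependent_iff] at hih
    have hlast : c (Fin.last m) = 0 := by
      by_contra hne
      set d : Fin (m + 1) → M := fun i => c i / c (Fin.last m) with hd
      have hdl : d (Fin.last m) = 1 := div_self hne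
      have hreld : ∀ j : ℕ, j ≤ m → ∑ i, d i * D^[j] (w i) = 0 := by
        intro j hj
        have h1 := hrel j hj
        have h2 : ∑ i, d i * D^[j] (w i) = (∑ i, c i * D^[j] (w i)) / c (Fin.last m) := by
          rw [Finset.sum_div]
          refine Finset.sum_congr rfl fun i _ => ?_
          rw [hd]
          ring
        rw [h2, h1, zero_div]
      have hder : ∀ j : ℕ, j < m → ∑ i, D (d i) * D^[j] (w i) = 0 := by
        intro j hj
        have h1 := congrArg D (hreld j hj.le)
        rw [map_zero, map_sum] at h1
        have h2 := hreld (j + 1) (by omega)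
        have h3 : ∀ i, D (d i * D^[j] (w i)) = d i * D^[j + 1] (w i) + D (d i) * D^[j] (w i) := by
          intro i
          rw [Derivation.leibniz, smul_eq_mul, smul_eq_mul, Function.iterate_succ_apply']
          ring
        simp only [h3, Finset.sum_add_distrib, h2, zero_add] at h1
        exact h1
      have hdc : ∀ i : Fin m, D (d i.castSucc) = 0 := by
        apply hih
        funext j
        rw [Finset.sum_apply]
        have h1 := hder j j.2
        rw [Fin.sum_univ_castSucc, hdl, D.map_one_eq_zero, zero_mul, add_zero] at h1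
        simpa using h1
      have hall : ∀ i, ∃ k : K, algebraMap K M k = d i := by
        intro i
        refine Fin.lastCases ?_ (fun i => ?_) i
        · exact ⟨1, by rw [map_one, hdl]⟩
        · exact hD _ (hdc i)
      choose k hk using hall
      have h0 := hreld 0 (Nat.zero_le _)
      rw [Fintype.linearIndependent_iff] at hw
      have h1 := hw k (by
        rw [← h0]
        refine Finset.sum_congr rfl fun i _ => ?_
        rw [Algebra.smul_def, hk]
        rfl) (Fin.last m)
      have h2 := hk (Fin.last m)
      rw [h1, map_zero, hdl] at h2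
      exact zero_ne_one h2
    intro i
    refine Fin.lastCases hlast (fun i => ?_) i
    refine hih (fun i => c i.castSucc) ?_ i
    funext j
    rw [Finset.sum_apply]
    have h1 := hrel j (by have := j.2; omega)
    rw [Fin.sum_univ_castSucc, hlast, zero_mul, add_zero] at h1
    simpa using h1

end

open Cardinal MP60829e.Dens in
/-- There is a derivation of the complex numbers whose constants are the algebraic numbers. -/
theorem exists_der_complex : ∃ D : Derivation QA ℂ ℂ, ∀ x, D x = 0 → x ∈ Set.range (algebraMap QA ℂ) := by
  have hacl : IsAlgClosed QA := isAlgClosed_QA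
  obtain ⟨s, hs⟩ := exists_isTranscendenceBasis QA ℂ
  have hQA : #QA ≤ ℵ₀ := by
    have halg : Algebra.IsAlgebraic ℚ QA := algebraicClosure.isAlgebraic ℚ ℂ
    have h := Algebra.IsAlgebraic.cardinalMk_le_max ℚ QA
    simpa using h
  have hC : ℵ₀ < #ℂ := by
    rw [Cardinal.mk_complex]
    exact Cardinal.aleph0_lt_continuum
  have h1 := IsAlgClosed.cardinal_eq_cardinal_transcendence_basis_of_aleph0_lt _ hs hQA hC
  rw [Cardinal.lift_id, Cardinal.lift_id] at h1
  have h2 : #(s × ℕ) = #s := by
    rw [Cardinal.mk_prod, Cardinal.lift_id, Cardinal.lift_id, Cardinal.mk_nat,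
      Cardinal.mul_aleph0_eq]
    rw [← h1]
    exact hC.le
  obtain ⟨e⟩ := Cardinal.eq.mp h2
  exact exists_der _ hs e

end MP60829e.AC
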