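import Mathlib

/-! Uniform algebraic dependence of `m + 1` rational functions in `m` variables. -/

open MvPolynomial Finset

namespace MP60829e.AC

theorem totalDegree_prod_pow_le {F V ι : Type*} [Field F] (s : Finset ι) (P : ι → MvPolynomial V F)
    (e : ι → ℕ) (δ : ℕ) (hP : ∀ l, (P l).totalDegree ≤ δ) :
    (∏ l ∈ s, P l ^ e l).totalDegree ≤ (∑ l ∈ s, e l) * δ := by
  refine (totalDegree_finsetProd _ _).trans ?_
  rw [Finset.sum_mul]
  refine Finset.sum_le_sum fun l _ => ?_
  exact (totalDegree_pow _ _).trans (Nat.mul_le_mul_left _ (hP l))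

theorem dep (m δ : ℕ) : ∃ d : ℕ, ∀ (F V : Type) [Field F] [Fintype V], Fintype.card V = m →
    ∀ (P : Fin (m + 1) → MvPolynomial V F) (W : MvPolynomial V F),
      (∀ l, (P l).totalDegree ≤ δ) → W.totalDegree ≤ δ →
      ∃ Φ : MvPolynomial (Fin (m + 1)) F, Φ ≠ 0 ∧ Φ.totalDegree ≤ d ∧
        ∀ (z : V → F) (y : Fin (m + 1) → F), eval z W ≠ 0 →
          (∀ l, y l * eval z W = eval z (P l)) → eval y Φ = 0 := by
  classical
  set d0 : ℕ := ((m + 1) * δ + 1) ^ m + 1 with hd0
  refine ⟨(m + 1) * d0, ?_⟩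
  intro F V _ _ hV P W hP hW
  set E : ℕ := (m + 1) * d0 * δ with hE
  -- the family of polynomials
  let T : (Fin (m + 1) → Fin d0) → MvPolynomial V F := fun e =>
    (∏ l, P l ^ (e l : ℕ)) * W ^ ((m + 1) * d0 - ∑ l, (e l : ℕ))
  have hsum : ∀ e : Fin (m + 1) → Fin d0, ∑ l, (e l : ℕ) ≤ (m + 1) * d0 := by
    intro e
    calc ∑ l, (e l : ℕ) ≤ ∑ _l : Fin (m + 1), d0 := Finset.sum_le_sum fun l _ => (e l).2.le
      _ = (m + 1) * d0 := by simp
  have hT : ∀ e, (T e).totalDegree ≤ E := by
    intro e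
    refine (totalDegree_mul _ _).trans ?_
    have h1 := totalDegree_prod_pow_le univ P (fun l => (e l : ℕ)) δ hP
    have h2 : (W ^ ((m + 1) * d0 - ∑ l, (e l : ℕ))).totalDegree ≤
        ((m + 1) * d0 - ∑ l, (e l : ℕ)) * δ :=
      (totalDegree_pow _ _).trans (Nat.mul_le_mul_left _ hW)
    have h3 : (∑ l, (e l : ℕ)) * δ + ((m + 1) * d0 - ∑ l, (e l : ℕ)) * δ = E := by
      rw [← add_mul, Nat.add_sub_cancel' (hsum e)]
    calc _ ≤ (∑ l, (e l : ℕ)) * δ + ((m + 1) * d0 - ∑ l, (e l : ℕ)) * δ := add_le_add h1 h2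
      _ = E := h3
  -- linear algebra
  let toF : (V → Fin (E + 1)) → (V →₀ ℕ) := fun ν => Finsupp.equivFunOnFinite.symm fun v => (ν v : ℕ)
  let Λ : ((Fin (m + 1) → Fin d0) → F) →ₗ[F] ((V → Fin (E + 1)) → F) :=
    { toFun := fun φ ν => ∑ e, φ e * coeff (toF ν) (T e)
      map_add' := fun φ ψ => by
        funext ν
        simp only [Pi.add_apply, add_mul, Finset.sum_add_distrib]
      map_smul' := fun c φ => by
        funext ν
        simp only [Pi.smul_apply, smul_eq_mul, RingHom.id_apply, Finset.mul_sum, mul_assoc] }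
  have hlt : Module.finrank F ((V → Fin (E + 1)) → F) <
      Module.finrank F ((Fin (m + 1) → Fin d0) → F) := by
    rw [Module.finrank_fintype_fun_eq_card, Module.finrank_fintype_fun_eq_card]
    simp only [Fintype.card_fun, Fintype.card_fin, hV]
    have h1 : E + 1 ≤ d0 * ((m + 1) * δ + 1) := by
      have h2 : 1 ≤ d0 := by omega
      calc E + 1 ≤ (m + 1) * d0 * δ + d0 := by omega
        _ = d0 * ((m + 1) * δ + 1) := by ring
    calc (E + 1) ^ m ≤ (d0 * ((m + 1) * δ + 1)) ^ m := Nat.pow_le_pow_left h1 m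
      _ = d0 ^ m * ((m + 1) * δ + 1) ^ m := by rw [mul_pow]
      _ < d0 ^ m * d0 := by
          apply Nat.mul_lt_mul_of_pos_left
          · omega
          · exact Nat.pow_pos (by omega)
      _ = d0 ^ (m + 1) := (pow_succ _ _).symm
  have hker := LinearMap.ker_ne_bot_of_finrank_lt hlt (f := Λ)
  rw [Submodule.ne_bot_iff] at hker
  obtain ⟨φ, hφ, hφ0⟩ := hker
  rw [LinearMap.mem_ker] at hφ
  have hrel : ∑ e, C (φ e) * T e = 0 := by
    ext ν
    rw [coeff_sum, coeff_zero]
    simp only [coeff_C_mul]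
    by_cases hν : ∀ v, ν v ≤ E
    · have h1 := congrFun hφ (fun v => ⟨ν v, by have := hν v; omega⟩)
      have h2 : toF (fun v => ⟨ν v, by have := hν v; omega⟩) = ν := by
        ext v
        simp [toF]
      simp only [Λ, LinearMap.coe_mk, AddHom.coe_mk, Pi.zero_apply, h2] at h1
      exact h1
    · push Not at hν
      obtain ⟨v, hv⟩ := hν
      refine Finset.sum_eq_zero fun e _ => ?_
      rw [coeff_eq_zero_of_totalDegree_lt, mul_zero]
      have h3 : ν v ≤ ∑ i ∈ ν.support, ν i := by
        by_cases hvs : v ∈ ν.support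
        · exact Finset.single_le_sum (f := fun i => ν i) (fun _ _ => Nat.zero_le _) hvs
        · rw [Finsupp.notMem_support_iff] at hvs
          omega
      have := hT e
      omega
  let toG : (Fin (m + 1) → Fin d0) → (Fin (m + 1) →₀ ℕ) := fun e =>
    Finsupp.equivFunOnFinite.symm fun l => (e l : ℕ)
  have htoG : Function.Injective toG := by
    intro e e' h
    funext l
    have := DFunLike.congr_fun h l
    simp only [toG, Finsupp.equivFunOnFinite_symm_apply_apply] at this
    exact Fin.ext this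
  let Φ : MvPolynomial (Fin (m + 1)) F := ∑ e, monomial (toG e) (φ e)
  refine ⟨Φ, ?_, ?_, ?_⟩
  · obtain ⟨e, he⟩ := Function.ne_iff.mp hφ0
    intro h0
    have h1 := congrArg (coeff (toG e)) h0
    rw [coeff_zero] at h1
    simp only [Φ, coeff_sum, coeff_monomial] at h1
    rw [Finset.sum_eq_single e] at h1
    · rw [if_pos rfl] at h1
      exact he h1
    · intro e' _ hne
      rw [if_neg]
      intro h
      exact hne (htoG h)
    · intro h; exact absurd (mem_univ _) h
  · refine totalDegree_finsetSum_le fun e _ => ?_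
    refine (totalDegree_monomial_le _ _).trans ?_
    rw [Finsupp.sum_fintype _ _ (fun _ => rfl)]
    exact hsum e
  · intro z y hz hy
    have h1 := congrArg (eval z) hrel
    rw [map_zero, map_sum] at h1
    have h2 : ∀ e, eval z (C (φ e) * T e) = eval z W ^ ((m + 1) * d0) * eval y (monomial (toG e) (φ e)) := by
      intro e
      simp only [T, map_mul, eval_C, map_prod, map_pow]
      have h3 : ∏ l, (eval z (P l)) ^ (e l : ℕ) = (∏ l, y l ^ (e l : ℕ)) * eval z W ^ (∑ l, (e l : ℕ)) := by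
        rw [← Finset.prod_pow_eq_pow_sum, ← Finset.prod_mul_distrib]
        refine Finset.prod_congr rfl fun l _ => ?_
        rw [← hy, mul_pow]
      rw [h3, eval_monomial]
      have h4 : (toG e).prod (fun l n => y l ^ n) = ∏ l, y l ^ (e l : ℕ) := by
        rw [Finsupp.prod_fintype _ _ (fun _ => pow_zero _)]
        rfl
      rw [h4]
      have h5 : eval z W ^ ((m + 1) * d0) = eval z W ^ (∑ l, (e l : ℕ)) *
          eval z W ^ ((m + 1) * d0 - ∑ l, (e l : ℕ)) := by
        rw [← pow_add, Nat.add_sub_cancel' (hsum e)]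
      rw [h5]
      ring
    simp only [h2, ← Finset.mul_sum] at h1
    have h3 := (mul_eq_zero.mp h1).resolve_left (pow_ne_zero _ hz)
    rw [← map_sum] at h3
    exact h3

end MP60829e.AC
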