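import Mathlib

/-! The universal differential ring of programs with a bounded number of additions. -/

open MvPolynomial Finset

namespace MP60829e.AC

section G

variable {R : Type*} [CommRing R] {A : ℕ}

/-- logarithmic derivatives of the two monomials of each step of a program -/
noncomputable def G (es : Fin A → Bool → Fin A → R) (M : Fin A → Bool → R) (I : Fin A → R)
    (base : Fin A → Bool → R) (i : Fin A) (b : Bool) : R :=
  base i b + ∑ j : Fin A, if h : j < i then
    es i b j * ((M j true * G es M I base j true + M j false * G es M I base j false) * I j) else 0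
termination_by i

theorem G_eq (es : Fin A → Bool → Fin A → R) (M : Fin A → Bool → R) (I : Fin A → R)
    (base : Fin A → Bool → R) (i : Fin A) (b : Bool) : G es M I base i b =
  base i b + ∑ j : Fin A, if j < i then
    es i b j * ((M j true * G es M I base j true + M j false * G es M I base j false) * I j) else 0 := by
  rw [G]
  simp only [dite_eq_ite]

theorem G_map {R' : Type*} [CommRing R'] (φ : R →+* R') (es : Fin A → Bool → Fin A → R)
    (M : Fin A → Bool → R) (I : Fin A → R) (base : Fin A → Bool → R) (i : Fin A) (b : Bool) :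
    φ (G es M I base i b) = G (fun i b j => φ (es i b j)) (fun i b => φ (M i b)) (fun i => φ (I i))
      (fun i b => φ (base i b)) i b := by
  induction i using WellFoundedLT.induction generalizing b with
  | ind i ih =>
    rw [G_eq, G_eq, map_add, map_sum]
    congr 1
    refine Finset.sum_congr rfl fun j _ => ?_
    split_ifs with h
    · simp only [map_mul, map_add]
      rw [ih j h, ih j h]
    · exact map_zero φ

theorem G_add (es : Fin A → Bool → Fin A → R) (M : Fin A → Bool → R) (I : Fin A → R)
    (b1 b2 : Fin A → Bool → R) (c : R) (i : Fin A) (b : Bool) :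
    G es M I (fun i b => b1 i b + b2 i b * c) i b = G es M I b1 i b + G es M I b2 i b * c := by
  induction i using WellFoundedLT.induction generalizing b with
  | ind i ih =>
    rw [G_eq, G_eq es M I b1, G_eq es M I b2, add_mul, Finset.sum_mul, add_add_add_comm]
    congr 1
    rw [← Finset.sum_add_distrib]
    refine Finset.sum_congr rfl fun j _ => ?_
    split_ifs with h
    · rw [ih j h, ih j h]
      ring
    · ring

end G

/-- the coordinates attached to a program -/
inductive V0 (k A : ℕ) : Type
  | ev : Fin A → Bool → Fin k → V0 k A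
  | ex : Fin A → Bool → V0 k A
  | es : Fin A → Bool → Fin A → V0 k A
  | M : Fin A → Bool → V0 k A
  | I : Fin A → V0 k A
  | X : V0 k A
  | J : V0 k A

/-- coordinates as a sum type -/
def V0.toSum {k A : ℕ} : V0 k A →
    (Fin A × Bool × Fin k) ⊕ (Fin A × Bool) ⊕ (Fin A × Bool × Fin A) ⊕ (Fin A × Bool) ⊕ Fin A ⊕ Bool
  | .ev i b v => Sum.inl (i, b, v)
  | .ex i b => Sum.inr (Sum.inl (i, b))
  | .es i b j => Sum.inr (Sum.inr (Sum.inl (i, b, j)))
  | .M i b => Sum.inr (Sum.inr (Sum.inr (Sum.inl (i, b))))
  | .I i => Sum.inr (Sum.inr (Sum.inr (Sum.inr (Sum.inl i))))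
  | .X => Sum.inr (Sum.inr (Sum.inr (Sum.inr (Sum.inr true))))
  | .J => Sum.inr (Sum.inr (Sum.inr (Sum.inr (Sum.inr false))))

instance {k A : ℕ} : Finite (V0 k A) := by
  apply Finite.of_injective (V0.toSum : V0 k A → _)
  intro a b h
  cases a <;> cases b <;> simp_all [V0.toSum]

noncomputable instance {k A : ℕ} : Fintype (V0 k A) := Fintype.ofFinite _

section

variable {k A : ℕ} {R : Type*} [CommRing R]

/-- the log-derivatives in terms of the values of the coordinates -/
noncomputable def Gv (val : V0 k A → R) (base : Fin A → Bool → R) : Fin A → Bool → R :=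
  G (fun i b j => val (.es i b j)) (fun i b => val (.M i b)) (fun i => val (.I i)) base

/-- derivative of the sum computed at a step -/
noncomputable def dS (val : V0 k A → R) (base : Fin A → Bool → R) (i : Fin A) : R :=
  val (.M i true) * Gv val base i true + val (.M i false) * Gv val base i false

theorem Gv_eq (val : V0 k A → R) (base : Fin A → Bool → R) (i : Fin A) (b : Bool) :
    Gv val base i b = base i b + ∑ j : Fin A, if j < i then
      val (.es i b j) * (dS val base j * val (.I j)) else 0 := G_eq _ _ _ _ _ _

/-- values of a derivation on the coordinates -/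
noncomputable def dv (val : V0 k A → R) (base : Fin A → Bool → R) (dX : R) : V0 k A → R
  | .ev _ _ _ => 0
  | .ex _ _ => 0
  | .es _ _ _ => 0
  | .M i b => val (.M i b) * Gv val base i b
  | .I i => -(val (.I i)) ^ 2 * dS val base i
  | .X => dX
  | .J => -(val .J) ^ 2 * dX

theorem Gv_map {R' : Type*} [CommRing R'] (φ : R →+* R') (val : V0 k A → R)
    (base : Fin A → Bool → R) (i : Fin A) (b : Bool) :
    φ (Gv val base i b) = Gv (fun v => φ (val v)) (fun i b => φ (base i b)) i b := G_map φ _ _ _ _ _ _

theorem dS_map {R' : Type*} [CommRing R'] (φ : R →+* R') (val : V0 k A → R)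
    (base : Fin A → Bool → R) (i : Fin A) :
    φ (dS val base i) = dS (fun v => φ (val v)) (fun i b => φ (base i b)) i := by
  simp only [dS, map_add, map_mul, Gv_map]

theorem dv_map {R' : Type*} [CommRing R'] (φ : R →+* R') (val : V0 k A → R)
    (base : Fin A → Bool → R) (dX : R) (v : V0 k A) :
    φ (dv val base dX v) = dv (fun v => φ (val v)) (fun i b => φ (base i b)) (φ dX) v := by
  cases v <;> simp only [dv, map_zero, map_mul, map_neg, map_pow, Gv_map, dS_map]

theorem dv_add (val : V0 k A → R) (b1 b2 : Fin A → Bool → R) (x1 x2 c : R) (v : V0 k A) :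
    dv val (fun i b => b1 i b + b2 i b * c) (x1 + x2 * c) v =
      dv val b1 x1 v + dv val b2 x2 v * c := by
  have hG : ∀ i b, Gv val (fun i b => b1 i b + b2 i b * c) i b = Gv val b1 i b + Gv val b2 i b * c :=
    fun i b => G_add _ _ _ _ _ _ _ _
  cases v <;> simp only [dv, dS, hG] <;> ring

/-- the universal ring without jets -/
abbrev U0 (k A : ℕ) := MvPolynomial (V0 k A) ℤ

/-- the universal ring with jets -/
abbrev U1 (k A : ℕ) := MvPolynomial (V0 k A ⊕ Fin k × ℕ) ℤ

/-- derivative with respect to the last variable -/
noncomputable def dX0 (k A : ℕ) : Derivation ℤ (U0 k A) (U0 k A) :=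
  mkDerivation ℤ (dv (fun v => (X v : U0 k A)) (fun i b => X (.ex i b) * X .J) 1)

/-- derivative with respect to the last variable -/
noncomputable def dX1 (k A : ℕ) : Derivation ℤ (U1 k A) (U1 k A) :=
  mkDerivation ℤ (Sum.elim (dv (fun v => (X (Sum.inl v) : U1 k A))
    (fun i b => X (Sum.inl (.ex i b)) * X (Sum.inl .J)) 1) (fun _ => 0))

/-- the remaining part of the total derivative -/
noncomputable def dR1 (k A : ℕ) : Derivation ℤ (U1 k A) (U1 k A) :=
  mkDerivation ℤ (Sum.elim (dv (fun v => (X (Sum.inl v) : U1 k A))
    (fun i b => ∑ v, X (Sum.inl (.ev i b v)) * X (Sum.inr (v, 0))) 0)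
    (fun w => X (Sum.inr (w.1, w.2 + 1))))

/-- inclusion -/
noncomputable def incl (k A : ℕ) : U0 k A →+* U1 k A := (rename Sum.inl : U0 k A →ₐ[ℤ] U1 k A).toRingHom

theorem incl_X (v : V0 k A) : incl k A (X v) = X (Sum.inl v) := rename_X _ _

theorem dX1_incl (p : U0 k A) : dX1 k A (incl k A p) = incl k A (dX0 k A p) := by
  induction p using MvPolynomial.induction_on with
  | C a =>
    have h1 : (C a : U0 k A) = algebraMap ℤ _ a := rfl
    have h2 : incl k A (C a) = algebraMap ℤ _ a := by
      show rename Sum.inl (C a) = _
      rw [rename_C]; rfl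
    rw [h2, Derivation.map_algebraMap, h1, Derivation.map_algebraMap, map_zero]
  | add p q hp hq => rw [map_add, map_add, hp, hq, map_add, map_add]
  | mul_X p v hp =>
    rw [map_mul, Derivation.leibniz, Derivation.leibniz, hp, incl_X]
    simp only [smul_eq_mul, map_add, map_mul, incl_X]
    congr 2
    simp only [dX1, dX0, mkDerivation_X, Sum.elim_inl]
    rw [dv_map (incl k A)]
    simp only [incl_X, map_mul, map_one]

/-- the value computed at a step -/
noncomputable def St (k A : ℕ) (i : Fin A) : U0 k A := X (.M i true) + X (.M i false)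

end

end MP60829e.AC
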