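import Mathlib
import Pool.Agent.Lib.MP_60829e_nt.AC.Univ

/-! Programs in differential rings. -/

open MvPolynomial Finset

namespace MP60829e.AC

/-- a program with `A` steps in a differential ring -/
structure Prog (k A : ℕ) (R : Type*) [CommRing R] (D : Derivation ℤ R R) where
  lam : Fin k → R
  ell : Fin k → R
  x : R
  xi : R
  c : Fin A → Bool → R
  e : Fin A → Bool → Fin k → ℕ
  eX : Fin A → Bool → ℕ
  e' : Fin A → Bool → Fin A → ℕ
  s : Fin A → R
  I : Fin A → R
  m : Fin A → Bool → R
  hlam : ∀ v, D (lam v) = lam v * ell v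
  hx : x * xi = 1
  hc : ∀ i b, D (c i b) = 0
  he' : ∀ i b j, i ≤ j → e' i b j = 0
  hm : ∀ i b, m i b = c i b * (∏ v, lam v ^ e i b v) * x ^ eX i b * ∏ j, s j ^ e' i b j
  hs : ∀ i, s i = m i true + m i false
  hinv : ∀ i b j, e' i b j ≠ 0 → s j * I j = 1 ∨ s j = 0
  hI : ∀ j, D (I j) = -(I j) ^ 2 * D (s j)

variable {k A : ℕ} {R : Type*} [CommRing R] {D : Derivation ℤ R R}

theorem ld_mul {a b α β : R} (ha : D a = a * α) (hb : D b = b * β) : D (a * b) = a * b * (α + β) := by
  rw [Derivation.leibniz, ha, hb, smul_eq_mul, smul_eq_mul]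
  ring

theorem ld_one : D (1 : R) = 1 * 0 := by rw [D.map_one_eq_zero, mul_zero]

theorem ld_pow {a α : R} (ha : D a = a * α) (n : ℕ) : D (a ^ n) = a ^ n * (n * α) := by
  induction n with
  | zero => rw [pow_zero, Nat.cast_zero, zero_mul]; exact ld_one
  | succ n ih =>
    rw [pow_succ, ld_mul ih ha]
    push_cast
    ring

theorem ld_prod {ι : Type*} (s : Finset ι) (f α : ι → R) (h : ∀ i ∈ s, D (f i) = f i * α i) :
    D (∏ i ∈ s, f i) = (∏ i ∈ s, f i) * ∑ i ∈ s, α i := by
  classical
  induction s using Finset.induction_on with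
  | empty => rw [prod_empty, sum_empty]; exact ld_one
  | insert i s hi ih =>
    rw [prod_insert hi, sum_insert hi]
    exact ld_mul (h i (mem_insert_self _ _)) (ih fun j hj => h j (mem_insert_of_mem hj))

namespace Prog

/-- values of the coordinates -/
def val (P : Prog k A R D) : V0 k A → R
  | .ev i b v => (P.e i b v : R)
  | .ex i b => (P.eX i b : R)
  | .es i b j => (P.e' i b j : R)
  | .M i b => P.m i b
  | .I i => P.I i
  | .X => P.x
  | .J => P.xi

/-- the base of the log-derivatives -/
def base (P : Prog k A R D) (i : Fin A) (b : Bool) : R :=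
  (∑ v, (P.e i b v : R) * P.ell v) + (P.eX i b : R) * P.xi * D P.x

theorem D_m (P : Prog k A R D) (i : Fin A) (b : Bool) :
    D (P.m i b) = P.m i b * Gv P.val P.base i b := by
  induction i using WellFoundedLT.induction generalizing b with
  | ind i ih =>
    have hs : ∀ j, j < i → D (P.s j) = dS P.val P.base j := by
      intro j hj
      rw [P.hs, map_add, ih j hj, ih j hj]
      rfl
    have h1 : D (P.c i b) = P.c i b * 0 := by rw [P.hc, mul_zero]
    have h2 : D (∏ v, P.lam v ^ P.e i b v) = (∏ v, P.lam v ^ P.e i b v) *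
        ∑ v, (P.e i b v : R) * P.ell v :=
      ld_prod _ _ _ fun v _ => ld_pow (P.hlam v) _
    have h3 : D (P.x ^ P.eX i b) = P.x ^ P.eX i b * ((P.eX i b : R) * (P.xi * D P.x)) := by
      apply ld_pow
      rw [← mul_assoc, P.hx, one_mul]
    have h4 : D (∏ j, P.s j ^ P.e' i b j) = (∏ j, P.s j ^ P.e' i b j) *
        ∑ j, (if j < i then (P.e' i b j : R) * (dS P.val P.base j * P.I j) else 0) := by
      apply ld_prod
      intro j _
      by_cases hj : P.e' i b j = 0
      · rw [hj, pow_zero, Nat.cast_zero, zero_mul, ite_self]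
        exact ld_one
      · have hji : j < i := by
          by_contra hcon
          exact hj (P.he' i b j (not_lt.mp hcon))
        rw [if_pos hji]
        apply ld_pow
        rw [← hs j hji]
        rcases P.hinv i b j hj with h | h
        · calc D (P.s j) = (P.s j * P.I j) * D (P.s j) := by rw [h, one_mul]
            _ = _ := by ring
        · rw [h, map_zero, zero_mul]
    rw [P.hm, ld_mul (ld_mul (ld_mul h1 h2) h3) h4, Gv_eq]
    congr 1
    rw [base, zero_add]
    congr 1
    ring

theorem D_s (P : Prog k A R D) (j : Fin A) : D (P.s j) = dS P.val P.base j := by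
  rw [P.hs, map_add, D_m, D_m]
  rfl

theorem D_val (P : Prog k A R D) (v : V0 k A) : D (P.val v) = dv P.val P.base (D P.x) v := by
  cases v with
  | ev i b v => simp [val, dv]
  | ex i b => simp [val, dv]
  | es i b j => simp [val, dv]
  | M i b => exact P.D_m i b
  | I i =>
    show D (P.I i) = _
    rw [P.hI, P.D_s]
    rfl
  | X => rfl
  | J =>
    show D P.xi = -(P.xi) ^ 2 * D P.x
    have h1 : D (P.x * P.xi) = 0 := by rw [P.hx, D.map_one_eq_zero]
    rw [Derivation.leibniz, smul_eq_mul, smul_eq_mul] at h1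
    have h2 : P.xi * (P.x * D P.xi + P.xi * D P.x) = 0 := by rw [h1, mul_zero]
    have h3 : P.xi * (P.x * D P.xi + P.xi * D P.x) = (P.x * P.xi) * D P.xi + P.xi ^ 2 * D P.x := by ring
    rw [h3, P.hx, one_mul] at h2
    rw [neg_mul, ← sub_eq_zero, sub_neg_eq_add, h2]

/-- evaluation of the universal ring with jets -/
noncomputable def ev1 (P : Prog k A R D) : U1 k A →+* R :=
  eval₂Hom (Int.castRingHom R) (Sum.elim P.val fun w => D^[w.2] (P.ell w.1))

/-- evaluation of the universal ring -/
noncomputable def ev0 (P : Prog k A R D) : U0 k A →+* R := eval₂Hom (Int.castRingHom R) P.val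

theorem ev1_X (P : Prog k A R D) (w) : P.ev1 (X w) = Sum.elim P.val (fun w => D^[w.2] (P.ell w.1)) w :=
  eval₂Hom_X' _ _ _

theorem ev0_X (P : Prog k A R D) (w) : P.ev0 (X w) = P.val w := eval₂Hom_X' _ _ _

theorem ev1_incl (P : Prog k A R D) (p : U0 k A) : P.ev1 (incl k A p) = P.ev0 p := by
  have h : P.ev1.comp (incl k A) = P.ev0 := by
    apply MvPolynomial.ringHom_ext
    · intro r
      have h1 : (C r : U0 k A) = (r : U0 k A) := by simp
      rw [h1, map_intCast, map_intCast]
    · intro v
      rw [RingHom.comp_apply, incl_X, ev1_X, ev0_X]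
      rfl
  exact congrArg (fun φ => φ p) h

theorem ev1_der (P : Prog k A R D) (p : U1 k A) :
    D (P.ev1 p) = P.ev1 (dR1 k A p) + P.ev1 (dX1 k A p) * D P.x := by
  induction p using MvPolynomial.induction_on with
  | C a =>
    have h1 : (C a : U1 k A) = algebraMap ℤ _ a := rfl
    have h2 : P.ev1 (algebraMap ℤ _ a) = algebraMap ℤ R a := by
      rw [eq_intCast, eq_intCast, map_intCast]
    rw [h1, h2, Derivation.map_algebraMap, Derivation.map_algebraMap, Derivation.map_algebraMap,
      map_zero, zero_mul, add_zero]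
  | add p q hp hq =>
    rw [map_add, map_add, hp, hq, map_add, map_add, map_add, map_add]
    ring
  | mul_X p v hp =>
    rw [map_mul, Derivation.leibniz, Derivation.leibniz, Derivation.leibniz, hp]
    simp only [smul_eq_mul, map_add, map_mul]
    have hv : D (P.ev1 (X v)) = P.ev1 (dR1 k A (X v)) + P.ev1 (dX1 k A (X v)) * D P.x := by
      rw [ev1_X]
      rcases v with v | w
      · simp only [Sum.elim_inl]
        rw [P.D_val, dR1, dX1, mkDerivation_X, mkDerivation_X]
        simp only [Sum.elim_inl]
        rw [dv_map P.ev1, dv_map P.ev1]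
        simp only [ev1_X, Sum.elim_inl, Sum.elim_inr, map_mul, map_sum, map_one, map_zero,
          Function.iterate_zero, id_eq]
        have h2 := dv_add P.val (fun i b => ∑ v, P.val (.ev i b v) * P.ell v)
          (fun i b => P.val (.ex i b) * P.val .J) 0 1 (D P.x) v
        rw [zero_add, one_mul] at h2
        exact h2
      · simp only [Sum.elim_inr]
        rw [dR1, dX1, mkDerivation_X, mkDerivation_X]
        simp only [Sum.elim_inr, ev1_X, map_zero, zero_mul, add_zero]
        rw [Function.iterate_succ_apply']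
    rw [hv]
    ring

theorem ev0_der (P : Prog k A R D) (hell : ∀ v, P.ell v = 0) (hx : D P.x = 1) (p : U0 k A) :
    D (P.ev0 p) = P.ev0 (dX0 k A p) := by
  induction p using MvPolynomial.induction_on with
  | C a =>
    have h1 : (C a : U0 k A) = algebraMap ℤ _ a := rfl
    have h2 : P.ev0 (algebraMap ℤ _ a) = algebraMap ℤ R a := by
      rw [eq_intCast, eq_intCast, map_intCast]
    rw [h1, h2, Derivation.map_algebraMap, Derivation.map_algebraMap, map_zero]
  | add p q hp hq =>
    rw [map_add, map_add, hp, hq, map_add, map_add]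
  | mul_X p v hp =>
    rw [map_mul, Derivation.leibniz, Derivation.leibniz, hp]
    simp only [smul_eq_mul, map_add, map_mul]
    have hv : D (P.ev0 (X v)) = P.ev0 (dX0 k A (X v)) := by
      rw [ev0_X, P.D_val, dX0, mkDerivation_X, dv_map P.ev0, hx]
      simp only [ev0_X, map_mul, map_one]
      congr 1
      funext i b
      rw [base, hx, mul_one]
      simp only [hell, mul_zero, sum_const_zero, zero_add]
      rfl
    rw [hv]

theorem ev0_St (P : Prog k A R D) (i : Fin A) : P.ev0 (St k A i) = P.s i := by
  rw [St, map_add, ev0_X, ev0_X, P.hs]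
  rfl

end Prog

end MP60829e.AC
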