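import Mathlib
import Pool.Agent.Lib.MP_60829e_nt.AC.Sem
import Pool.Agent.Lib.MP_60829e_nt.AC.Dim

/-! Elimination: a nonzero differential polynomial of bounded order and degree. -/

open MvPolynomial Finset

namespace MP60829e.AC

theorem noeth {R : Type*} [CommRing R] [IsNoetherianRing R] (f : ℕ → R) :
    ∃ N : ℕ, ∀ i, f i ∈ Ideal.span (f '' Set.Iio N) := by
  let I : ℕ →o Submodule R R :=
    { toFun := fun n => Ideal.span (f '' Set.Iio n)
      monotone' := fun a b h => Ideal.span_mono (Set.image_mono (Set.Iio_subset_Iio h)) }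
  obtain ⟨N, hN⟩ := (monotone_stabilizes_iff_noetherian (R := R) (M := R)).mpr inferInstance I
  refine ⟨N, fun i => ?_⟩
  have h1 : f i ∈ I (max N (i + 1)) := Ideal.subset_span ⟨i, by simp, rfl⟩
  rw [← hN (max N (i + 1)) (le_max_left _ _)] at h1
  exact h1

theorem noeth_zero {R S : Type*} [CommRing R] [CommRing S] (f : ℕ → R) (N : ℕ)
    (hN : ∀ i, f i ∈ Ideal.span (f '' Set.Iio N)) (φ : R →+* S) (h : ∀ i < N, φ (f i) = 0) (i : ℕ) :
    φ (f i) = 0 := by
  have h1 : Ideal.span (f '' Set.Iio N) ≤ RingHom.ker φ := by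
    rw [Ideal.span_le]
    rintro _ ⟨j, hj, rfl⟩
    exact h j hj
  exact h1 (hN i)

section

variable (k A : ℕ)

/-- the bracket -/
noncomputable def br (g p : U1 k A) : U1 k A := dR1 k A p * dX1 k A g - dX1 k A p * dR1 k A g

/-- numerators of the derivatives of the last variable -/
noncomputable def Pl (g : U1 k A) : ℕ → U1 k A
  | 0 => X (Sum.inl .X)
  | l + 1 => dX1 k A g * br k A g (Pl g l) - ((2 * l : ℕ) : U1 k A) * Pl g l * br k A g (dX1 k A g)

variable {k A} {R : Type*} [CommRing R] {D : Derivation ℤ R R}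

theorem ev1_br (P : Prog k A R D) (g : U1 k A) (hg : P.ev1 g = 0) (p : U1 k A) :
    P.ev1 (dX1 k A g) * D (P.ev1 p) = P.ev1 (br k A g p) := by
  have h1 := P.ev1_der g
  rw [hg, map_zero] at h1
  have h2 := P.ev1_der p
  rw [h2, br, map_sub, map_mul, map_mul]
  have h3 : P.ev1 (dR1 k A g) = -(P.ev1 (dX1 k A g) * D P.x) := by
    rw [eq_neg_iff_add_eq_zero]
    exact h1.symm
  rw [h3]
  ring

theorem ev1_Pl (P : Prog k A R D) (g : U1 k A) (hg : P.ev1 g = 0) (l : ℕ) :
    D^[l] P.x * P.ev1 (dX1 k A g) ^ (2 * l) = P.ev1 (Pl k A g l) := by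
  set W := P.ev1 (dX1 k A g) with hW
  set q := P.ev1 (br k A g (dX1 k A g)) with hq
  have hWq : W * D W = q := ev1_br P g hg _
  have hpow : ∀ n : ℕ, W ^ 2 * D (W ^ n) = n * W ^ n * q := by
    intro n
    induction n with
    | zero => rw [pow_zero, D.map_one_eq_zero]; simp
    | succ n ih =>
      rw [pow_succ W n, Derivation.leibniz, smul_eq_mul, smul_eq_mul, mul_add]
      have h1 : W ^ 2 * (W ^ n * D W) = W ^ n * W * (W * D W) := by ring
      have h2 : W ^ 2 * (W * D (W ^ n)) = W * (W ^ 2 * D (W ^ n)) := by ring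
      rw [h1, h2, ih, hWq]
      push_cast
      ring
  induction l with
  | zero =>
    simp only [Function.iterate_zero, id_eq, mul_zero, pow_zero, mul_one, Pl]
    rw [P.ev1_X]
    rfl
  | succ l ih =>
    have h1 := congrArg D ih
    rw [Derivation.leibniz, smul_eq_mul, smul_eq_mul] at h1
    have h2 := ev1_br P g hg (Pl k A g l)
    rw [← hW, ← h1] at h2
    rw [Pl, map_sub, map_mul, map_mul, map_mul, map_natCast, ← hW, ← hq, ← ih, ← h2]
    have h3 := hpow (2 * l)
    rw [Function.iterate_succ_apply']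
    have h4 : W * (W * (D^[l] P.x * D (W ^ (2 * l)) + W ^ (2 * l) * D (D^[l] P.x))) =
        D^[l] P.x * (W ^ 2 * D (W ^ (2 * l))) + D (D^[l] P.x) * W ^ (2 * (l + 1)) := by ring
    rw [h4, h3]
    ring

/-- specialisation of the jets -/
noncomputable def spec (D : Derivation ℤ R R) (ell : Fin k → R) : U1 k A →+* MvPolynomial (V0 k A) R :=
  eval₂Hom (Int.castRingHom _) (Sum.elim X fun w => C (D^[w.2] (ell w.1)))

theorem eval_spec (P : Prog k A R D) (p : U1 k A) : eval P.val (spec D P.ell p) = P.ev1 p := by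
  have h : (eval P.val).comp (spec D P.ell) = P.ev1 := by
    apply MvPolynomial.ringHom_ext
    · intro r
      have h1 : (C r : U1 k A) = (r : U1 k A) := by simp
      rw [h1, map_intCast, map_intCast]
    · intro v
      rw [RingHom.comp_apply, P.ev1_X, spec, eval₂Hom_X']
      rcases v with v | w
      · simp
      · simp
  exact congrArg (fun φ => φ p) h

theorem spec_X (D : Derivation ℤ R R) (ell : Fin k → R) (w) : (spec D ell (X w) : MvPolynomial (V0 k A) R) =
    Sum.elim X (fun w => C (D^[w.2] (ell w.1))) w := eval₂Hom_X' _ _ _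

theorem totalDegree_spec (D : Derivation ℤ R R) (ell : Fin k → R) (p : U1 k A) :
    (spec D ell p).totalDegree ≤ p.totalDegree := by
  conv_lhs => rw [p.as_sum]
  rw [map_sum]
  refine totalDegree_finsetSum_le fun d hd => ?_
  rw [monomial_eq, map_mul, Finsupp.prod, map_prod]
  refine (totalDegree_mul _ _).trans ?_
  have h0 : (C (coeff d p) : U1 k A) = ((coeff d p : ℤ) : U1 k A) := by simp
  have h1 : (spec D ell (C (coeff d p)) : MvPolynomial (V0 k A) R).totalDegree = 0 := by
    rw [h0, map_intCast]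
    have h2 : (((coeff d p : ℤ)) : MvPolynomial (V0 k A) R) = C ((coeff d p : ℤ) : R) := by
      rw [map_intCast]
    rw [h2, totalDegree_C]
  rw [h1, zero_add]
  refine (totalDegree_finsetProd _ _).trans ?_
  refine le_trans ?_ (le_totalDegree hd)
  refine Finset.sum_le_sum fun i _ => ?_
  rw [map_pow, spec_X]
  refine (totalDegree_pow _ _).trans ?_
  have h2 : (Sum.elim X (fun w => C (D^[w.2] (ell w.1))) i : MvPolynomial (V0 k A) R).totalDegree ≤ 1 := by
    rcases i with v | w
    · exact (totalDegree_monomial_le (Finsupp.single v 1) (1 : R)).trans (by simp)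
    · rw [Sum.elim_inr, totalDegree_C]
      exact Nat.zero_le _
  calc d i * _ ≤ d i * 1 := Nat.mul_le_mul_left _ h2
    _ = d i := mul_one _

end

/-- There is a nonzero differential polynomial of bounded order and degree that vanishes at the
last variable of every program whose last step vanishes, but not identically. -/
theorem exists_dpoly (k A : ℕ) (i0 : Fin A) : ∃ d : ℕ, ∀ (D : Derivation ℤ ℂ ℂ) (ell : Fin k → ℂ),
    ∃ Φ : MvPolynomial (Fin (Fintype.card (V0 k A) + 1)) ℂ, Φ ≠ 0 ∧ Φ.totalDegree ≤ d ∧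
      ∀ P : Prog k A ℂ D, P.ell = ell → P.s i0 = 0 →
        (∃ i, P.ev0 ((dX0 k A)^[i] (St k A i0)) ≠ 0) →
        eval (fun j : Fin (Fintype.card (V0 k A) + 1) => D^[(j : ℕ)] P.x) Φ = 0 := by
  classical
  set Rr : ℕ → U0 k A := fun i => (dX0 k A)^[i] (St k A i0) with hRr
  obtain ⟨N0, hN0⟩ := noeth Rr
  set m := Fintype.card (V0 k A) with hm
  let g : ℕ → U1 k A := fun μ => incl k A (Rr μ)
  let Pp : ℕ → ℕ → U1 k A := fun μ l => Pl k A (g μ) l * dX1 k A (g μ) ^ (2 * (m - l))
  let Wp : ℕ → U1 k A := fun μ => dX1 k A (g μ) ^ (2 * m)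
  set δ : ℕ := (∑ μ ∈ range N0, (Wp μ).totalDegree) +
    ∑ μ ∈ range N0, ∑ l ∈ range (m + 1), (Pp μ l).totalDegree with hδ
  obtain ⟨d, hd⟩ := dep m δ
  refine ⟨N0 * d, ?_⟩
  intro D ell
  have hdeg1 : ∀ μ, μ < N0 → ∀ l : Fin (m + 1), (spec D ell (Pp μ l)).totalDegree ≤ δ := by
    intro μ hμ l
    refine (totalDegree_spec D ell _).trans ?_
    rw [hδ]
    refine le_trans ?_ (Nat.le_add_left _ _)
    have h1 : (Pp μ l).totalDegree ≤ ∑ l ∈ range (m + 1), (Pp μ l).totalDegree :=
      Finset.single_le_sum (f := fun l => (Pp μ l).totalDegree) (fun _ _ => Nat.zero_le _)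
        (mem_range.mpr l.2)
    exact h1.trans (Finset.single_le_sum
      (f := fun μ => ∑ l ∈ range (m + 1), (Pp μ l).totalDegree) (fun _ _ => Nat.zero_le _)
      (mem_range.mpr hμ))
  have hdeg2 : ∀ μ, μ < N0 → (spec D ell (Wp μ)).totalDegree ≤ δ := by
    intro μ hμ
    refine (totalDegree_spec D ell _).trans ?_
    rw [hδ]
    refine le_trans ?_ (Nat.le_add_right _ _)
    exact Finset.single_le_sum (f := fun μ => (Wp μ).totalDegree) (fun _ _ => Nat.zero_le _)
      (mem_range.mpr hμ)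
  have hex : ∀ μ : Fin N0, ∃ Φ : MvPolynomial (Fin (m + 1)) ℂ, Φ ≠ 0 ∧ Φ.totalDegree ≤ d ∧
      ∀ (z : V0 k A → ℂ) (y : Fin (m + 1) → ℂ), eval z (spec D ell (Wp μ)) ≠ 0 →
        (∀ l : Fin (m + 1), y l * eval z (spec D ell (Wp μ)) = eval z (spec D ell (Pp μ l))) →
        eval y Φ = 0 :=
    fun μ => hd ℂ (V0 k A) hm.symm (fun l : Fin (m + 1) => spec D ell (Pp μ l)) (spec D ell (Wp μ))
      (hdeg1 μ μ.2) (hdeg2 μ μ.2)
  choose Φ hΦ0 hΦd hΦ using hex
  refine ⟨∏ μ, Φ μ, ?_, ?_, ?_⟩
  · exact Finset.prod_ne_zero_iff.mpr fun μ _ => hΦ0 μ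
  · refine (totalDegree_finsetProd _ _).trans ?_
    refine (Finset.sum_le_sum fun μ _ => hΦd μ).trans ?_
    simp
  · intro P hell hs0 hne
    -- the first nonvanishing derivative
    have hlt : Nat.find hne < N0 := by
      by_contra hcon
      have h1 := noeth_zero Rr N0 hN0 P.ev0 (fun i hi => by
        have h2 := Nat.find_min hne (m := i) (by omega)
        exact not_not.mp h2) (Nat.find hne)
      exact Nat.find_spec hne h1
    have hpos : Nat.find hne ≠ 0 := by
      intro h0
      have h1 := Nat.find_spec hne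
      rw [h0] at h1
      apply h1
      simp only [Function.iterate_zero, id_eq]
      rw [P.ev0_St]
      exact hs0
    obtain ⟨μ, hμ⟩ := Nat.exists_eq_succ_of_ne_zero hpos
    have hμN : μ < N0 := by omega
    have hg : P.ev1 (g μ) = 0 := by
      show P.ev1 (incl k A _) = 0
      rw [P.ev1_incl]
      have h2 := Nat.find_min hne (m := μ) (by omega)
      exact not_not.mp h2
    have hW : P.ev1 (dX1 k A (g μ)) ≠ 0 := by
      show P.ev1 (dX1 k A (incl k A _)) ≠ 0
      rw [dX1_incl, P.ev1_incl]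
      have h1 := Nat.find_spec hne
      rw [hμ, Function.iterate_succ_apply'] at h1
      exact h1
    rw [map_prod]
    refine Finset.prod_eq_zero (mem_univ ⟨μ, hμN⟩) ?_
    refine hΦ ⟨μ, hμN⟩ P.val _ ?_ ?_
    · rw [← hell, eval_spec]
      show P.ev1 (dX1 k A (g μ) ^ (2 * m)) ≠ 0
      rw [map_pow]
      exact pow_ne_zero _ hW
    · intro l
      rw [← hell, eval_spec, eval_spec]
      show D^[(l : ℕ)] P.x * P.ev1 (dX1 k A (g μ) ^ (2 * m)) =
        P.ev1 (Pl k A (g μ) l * dX1 k A (g μ) ^ (2 * (m - l)))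
      rw [map_mul, map_pow, map_pow, ← ev1_Pl P (g μ) hg l, mul_assoc, ← pow_add]
      congr 2
      have := l.2
      omega

end MP60829e.AC
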