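import Mathlib
import Pool.Agent.Lib.MP_60829e_nt.AC.Elim

/-! Elimination, affine version: any `m + 1` affine combinations of the derivatives of the last
variable are algebraically dependent, with bounded degree. -/

open MvPolynomial Finset

namespace MP60829e.AC

theorem exists_cpoly (k A e : ℕ) (i0 : Fin A) : ∃ d : ℕ, ∀ (D : Derivation ℤ ℂ ℂ) (ell : Fin k → ℂ)
    (U : Fin (Fintype.card (V0 k A) + 1) → Fin e → ℂ) (τ : Fin (Fintype.card (V0 k A) + 1) → ℂ),
    ∃ Φ : MvPolynomial (Fin (Fintype.card (V0 k A) + 1)) ℂ, Φ ≠ 0 ∧ Φ.totalDegree ≤ d ∧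
      ∀ P : Prog k A ℂ D, P.ell = ell → P.s i0 = 0 →
        (∃ i, P.ev0 ((dX0 k A)^[i] (St k A i0)) ≠ 0) →
        eval (fun l => ∑ j, U l j * D^[(j : ℕ)] P.x + τ l) Φ = 0 := by
  classical
  set Rr : ℕ → U0 k A := fun i => (dX0 k A)^[i] (St k A i0) with hRr
  obtain ⟨N0, hN0⟩ := noeth Rr
  set m := Fintype.card (V0 k A) with hm
  let g : ℕ → U1 k A := fun μ => incl k A (Rr μ)
  let Pp : ℕ → ℕ → U1 k A := fun μ l => Pl k A (g μ) l * dX1 k A (g μ) ^ (2 * (e - l))
  let Wp : ℕ → U1 k A := fun μ => dX1 k A (g μ) ^ (2 * e)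
  set δ : ℕ := (∑ μ ∈ range N0, (Wp μ).totalDegree) +
    ∑ μ ∈ range N0, ∑ l ∈ range e, (Pp μ l).totalDegree with hδ
  obtain ⟨d, hd⟩ := dep m δ
  refine ⟨N0 * d, ?_⟩
  intro D ell U τ
  have hdeg1 : ∀ μ, μ < N0 → ∀ l : Fin e, (spec D ell (Pp μ l)).totalDegree ≤ δ := by
    intro μ hμ l
    refine (totalDegree_spec D ell _).trans ?_
    rw [hδ]
    refine le_trans ?_ (Nat.le_add_left _ _)
    have h1 : (Pp μ l).totalDegree ≤ ∑ l ∈ range e, (Pp μ l).totalDegree :=
      Finset.single_le_sum (f := fun l => (Pp μ l).totalDegree) (fun _ _ => Nat.zero_le _)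
        (mem_range.mpr l.2)
    exact h1.trans (Finset.single_le_sum
      (f := fun μ => ∑ l ∈ range e, (Pp μ l).totalDegree) (fun _ _ => Nat.zero_le _)
      (mem_range.mpr hμ))
  have hdeg2 : ∀ μ, μ < N0 → (spec D ell (Wp μ)).totalDegree ≤ δ := by
    intro μ hμ
    refine (totalDegree_spec D ell _).trans ?_
    rw [hδ]
    refine le_trans ?_ (Nat.le_add_right _ _)
    exact Finset.single_le_sum (f := fun μ => (Wp μ).totalDegree) (fun _ _ => Nat.zero_le _)
      (mem_range.mpr hμ)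
  let Q : ℕ → Fin (m + 1) → MvPolynomial (V0 k A) ℂ := fun μ l =>
    (∑ j : Fin e, C (U l j) * spec D ell (Pp μ j)) + C (τ l) * spec D ell (Wp μ)
  have hdegQ : ∀ μ, μ < N0 → ∀ l, (Q μ l).totalDegree ≤ δ := by
    intro μ hμ l
    refine (totalDegree_add _ _).trans (max_le ?_ ?_)
    · refine totalDegree_finsetSum_le fun j _ => ?_
      refine (totalDegree_mul _ _).trans ?_
      rw [totalDegree_C, zero_add]
      exact hdeg1 μ hμ j
    · refine (totalDegree_mul _ _).trans ?_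
      rw [totalDegree_C, zero_add]
      exact hdeg2 μ hμ
  have hex : ∀ μ : Fin N0, ∃ Φ : MvPolynomial (Fin (m + 1)) ℂ, Φ ≠ 0 ∧ Φ.totalDegree ≤ d ∧
      ∀ (z : V0 k A → ℂ) (y : Fin (m + 1) → ℂ), eval z (spec D ell (Wp μ)) ≠ 0 →
        (∀ l : Fin (m + 1), y l * eval z (spec D ell (Wp μ)) = eval z (Q μ l)) →
        eval y Φ = 0 :=
    fun μ => hd ℂ (V0 k A) hm.symm (Q μ) (spec D ell (Wp μ)) (hdegQ μ μ.2) (hdeg2 μ μ.2)
  choose Φ hΦ0 hΦd hΦ using hex
  refine ⟨∏ μ, Φ μ, ?_, ?_, ?_⟩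
  · exact Finset.prod_ne_zero_iff.mpr fun μ _ => hΦ0 μ
  · refine (totalDegree_finsetProd _ _).trans ?_
    refine (Finset.sum_le_sum fun μ _ => hΦd μ).trans ?_
    simp
  · intro P hell hs0 hne
    have hlt : Nat.find hne < N0 := by
      by_contra hcon
      have h1 := noeth_zero Rr N0 hN0 P.ev0 (fun i hi => by
        have h2 := Nat.find_min hne (m := i) (by omega)
        exact not_not.mp h2) (Nat.find hne)
      exact Nat.find_spec hne h1
    have hpos : Nat.find hne ≠ 0 := by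
      intro h0
      have h1 := Nat.find_spec hne
      rw [h0] at h1
      apply h1
      simp only [Function.iterate_zero, id_eq]
      rw [P.ev0_St]
      exact hs0
    obtain ⟨μ, hμ⟩ := Nat.exists_eq_succ_of_ne_zero hpos
    have hμN : μ < N0 := by omega
    have hg : P.ev1 (g μ) = 0 := by
      show P.ev1 (incl k A _) = 0
      rw [P.ev1_incl]
      have h2 := Nat.find_min hne (m := μ) (by omega)
      exact not_not.mp h2
    have hW : P.ev1 (dX1 k A (g μ)) ≠ 0 := by
      show P.ev1 (dX1 k A (incl k A _)) ≠ 0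
      rw [dX1_incl, P.ev1_incl]
      have h1 := Nat.find_spec hne
      rw [hμ, Function.iterate_succ_apply'] at h1
      exact h1
    rw [map_prod]
    refine Finset.prod_eq_zero (mem_univ ⟨μ, hμN⟩) ?_
    have hWv : eval P.val (spec D ell (Wp μ)) = P.ev1 (dX1 k A (g μ)) ^ (2 * e) := by
      rw [← hell, eval_spec]
      exact map_pow _ _ _
    have hPv : ∀ j : Fin e, eval P.val (spec D ell (Pp μ j)) =
        D^[(j : ℕ)] P.x * P.ev1 (dX1 k A (g μ)) ^ (2 * e) := by
      intro j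
      rw [← hell, eval_spec]
      show P.ev1 (Pl k A (g μ) j * dX1 k A (g μ) ^ (2 * (e - j))) = _
      rw [map_mul, map_pow, ← ev1_Pl P (g μ) hg j, mul_assoc, ← pow_add]
      congr 2
      have := j.2
      omega
    refine hΦ ⟨μ, hμN⟩ P.val _ ?_ ?_
    · rw [hWv]
      exact pow_ne_zero _ hW
    · intro l
      show _ = eval P.val (Q μ l)
      simp only [Q, map_add, map_sum, map_mul, eval_C, hPv]
      rw [hWv, add_mul, Finset.sum_mul]
      congr 1
      refine Finset.sum_congr rfl fun j _ => ?_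
      ring

end MP60829e.AC
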