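import Mathlib
import Pool.Agent.Lib.MP_60829e_nt.AC.Basic
import Pool.Agent.Lib.MP_60829e_nt.AC.Elim
import Pool.Agent.Lib.MP_60829e_nt.AC.Der

/-! Relations of bounded additive complexity give points of the universal ring. -/

open MvPolynomial Finset

namespace MP60829e.AC

open MP60829e.Dens (QA isAlgClosed_QA)

/-- the data of a program over the algebraic numbers -/
structure Dat (k a : ℕ) where
  s : Fin a → MvPolynomial (Fin k ⊕ Fin 1) QA
  E : Fin a → Bool → (Fin k ⊕ Fin 1 →₀ ℕ)
  c : Fin a → Bool → QA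
  e' : Fin a → Bool → Fin a → ℕ
  he' : ∀ i b j, i ≤ j → e' i b j = 0
  hs : ∀ i, s i = monomial (E i true) (c i true) * ∏ j, s j ^ e' i true j +
    monomial (E i false) (c i false) * ∏ j, s j ^ e' i false j

theorem exists_dat {k a : ℕ} (s : Fin a → MvPolynomial (Fin k ⊕ Fin 1) QA)
    (hs : ∀ i : Fin a, ∃ p q, IsMon s i p ∧ IsMon s i q ∧ s i = p + q) :
    ∃ d : Dat k a, d.s = s := by
  have h1 : ∀ i : Fin a, ∃ (E : Bool → (Fin k ⊕ Fin 1 →₀ ℕ)) (c : Bool → QA) (e' : Bool → Fin a → ℕ),
      (∀ b j, i ≤ j → e' b j = 0) ∧ s i = monomial (E true) (c true) * ∏ j, s j ^ e' true j +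
        monomial (E false) (c false) * ∏ j, s j ^ e' false j := by
    intro i
    obtain ⟨p, q, ⟨e1, c1, f1, hf1, rfl⟩, ⟨e2, c2, f2, hf2, rfl⟩, h⟩ := hs i
    refine ⟨fun b => if b then e1 else e2, fun b => if b then c1 else c2,
      fun b => if b then f1 else f2, ?_, ?_⟩
    · intro b j hj
      cases b
      · exact hf2 j hj
      · exact hf1 j hj
    · simpa using h
  choose E c e' he' h2 using h1
  exact ⟨⟨s, E, c, e', he', h2⟩, rfl⟩

section prog

variable {k a : ℕ} {R : Type} [CommRing R] [Algebra QA R]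

/-- the point -/
def pt (lam : Fin k → R) (x : R) : Fin k ⊕ Fin 1 → R := Sum.elim lam fun _ => x

theorem aeval_step (d : Dat k a) (lam : Fin k → R) (x : R) (i : Fin a) (b : Bool) :
    aeval (pt lam x) (monomial (d.E i b) (d.c i b) * ∏ j, d.s j ^ d.e' i b j) =
      algebraMap QA R (d.c i b) * (∏ v, lam v ^ d.E i b (Sum.inl v)) * x ^ d.E i b (Sum.inr 0) *
        ∏ j, aeval (pt lam x) (d.s j) ^ d.e' i b j := by
  rw [map_mul, aeval_monomial, Finsupp.prod_fintype _ _ (fun _ => pow_zero _),
    Fintype.prod_sum_type, map_prod]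
  simp only [map_pow]
  congr 1
  rw [mul_assoc]
  congr 1
  congr 1
  simp [pt]

/-- the program in a differential ring, truncated after the step `j0` -/
noncomputable def Dat.prog (d : Dat k a) (j0 : Fin a) (D : Derivation ℤ R R)
    (hDc : ∀ c : QA, D (algebraMap QA R c) = 0) (lam ell : Fin k → R) (x xi : R)
    (hlam : ∀ v, D (lam v) = lam v * ell v) (hx : x * xi = 1) (inv : R → R)
    (hinv : ∀ j, j < j0 → aeval (pt lam x) (d.s j) * inv (aeval (pt lam x) (d.s j)) = 1 ∨
      aeval (pt lam x) (d.s j) = 0)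
    (hI : ∀ z, D (inv z) = -(inv z) ^ 2 * D z) : Prog k a R D where
  lam := lam
  ell := ell
  x := x
  xi := xi
  c i b := if i ≤ j0 then algebraMap QA R (d.c i b) else 0
  e i b v := d.E i b (Sum.inl v)
  eX i b := d.E i b (Sum.inr 0)
  e' i b j := if i ≤ j0 then d.e' i b j else 0
  s i := if i ≤ j0 then aeval (pt lam x) (d.s i) else 0
  I i := inv (if i ≤ j0 then aeval (pt lam x) (d.s i) else 0)
  m i b := if i ≤ j0 then aeval (pt lam x) (monomial (d.E i b) (d.c i b) * ∏ j, d.s j ^ d.e' i b j)
    else 0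
  hlam := hlam
  hx := hx
  hc i b := by
    split_ifs
    · exact hDc _
    · exact map_zero _
  he' i b j hij := by
    split_ifs
    · exact d.he' i b j hij
    · rfl
  hm i b := by
    by_cases hi : i ≤ j0
    · simp only [if_pos hi]
      rw [aeval_step]
      congr 1
      refine Finset.prod_congr rfl fun j _ => ?_
      by_cases hj : d.e' i b j = 0
      · rw [hj, pow_zero, pow_zero]
      · have hji : j < i := by
          by_contra hcon
          exact hj (d.he' i b j (not_lt.mp hcon))
        rw [if_pos (hji.le.trans hi)]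
    · simp only [if_neg hi, zero_mul]
  hs i := by
    by_cases hi : i ≤ j0
    · simp only [if_pos hi]
      conv_lhs => rw [d.hs i]
      rw [map_add]
    · simp only [if_neg hi, add_zero]
  hinv i b j hij := by
    by_cases hi : i ≤ j0
    · rw [if_pos hi] at hij
      have hji : j < i := by
        by_contra hcon
        exact hij (d.he' i b j (not_lt.mp hcon))
      rw [if_pos (hji.le.trans hi)]
      exact hinv j (lt_of_lt_of_le hji hi)
    · rw [if_neg hi] at hij
      exact absurd rfl hij
  hI j := hI _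

end prog

/-- the program in the field of complex numbers -/
noncomputable def Dat.progC {k a : ℕ} (d : Dat k a) (j0 : Fin a) (D : Derivation QA ℂ ℂ)
    (lam : Fin k → ℂ) (hlam : ∀ v, lam v ≠ 0) (x : ℂ) (hx : x ≠ 0) :
    Prog k a ℂ (D.restrictScalars ℤ) :=
  d.prog j0 (D.restrictScalars ℤ) (fun c => D.map_algebraMap c) lam (fun v => D (lam v) / lam v) x x⁻¹
    (fun v => by
      show D (lam v) = _
      rw [mul_div_cancel₀ _ (hlam v)])
    (mul_inv_cancel₀ hx) (fun z => z⁻¹)
    (fun j _ => by
      by_cases h : aeval (pt lam x) (d.s j) = 0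
      · exact Or.inr h
      · exact Or.inl (mul_inv_cancel₀ h))
    (fun z => by
      show D z⁻¹ = _
      rw [Derivation.leibniz_inv, smul_eq_mul]
      rfl)

/-- derivations from additive maps -/
noncomputable def mkDer {R : Type} [CommRing R] (f : R →+ R)
    (h : ∀ a b, f (a * b) = a * f b + b * f a) : Derivation ℤ R R :=
  Derivation.mk' f.toIntLinearMap h

theorem mkDer_apply {R : Type} [CommRing R] (f : R →+ R)
    (h : ∀ a b, f (a * b) = a * f b + b * f a) (x : R) : mkDer f h x = f x := rfl

/-- the derivation of the power series -/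
noncomputable def dPS := mkDer (R := PowerSeries ℂ)
  { toFun := fun f => PowerSeries.derivative ℂ f
    map_zero' := map_zero _
    map_add' := fun a b => map_add _ a b } (fun a b => (PowerSeries.derivative ℂ).leibniz a b)

theorem dPS_apply (f : PowerSeries ℂ) : dPS f = PowerSeries.derivative ℂ f := rfl

theorem algebraMap_PS (c : QA) : algebraMap QA (PowerSeries ℂ) c = PowerSeries.C (c : ℂ) := by
  show algebraMap ℂ (PowerSeries ℂ) (c : ℂ) = _
  exact PowerSeries.algebraMap_apply

section PS

variable {k a : ℕ}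

/-- the constants -/
noncomputable def lamPS (lam : Fin k → ℂ) : Fin k → PowerSeries ℂ := fun v => PowerSeries.C (lam v)

/-- the variable -/
noncomputable def xPS (x : ℂ) : PowerSeries ℂ := PowerSeries.C x + PowerSeries.X

theorem cc_xPS (x : ℂ) : PowerSeries.constantCoeff (xPS x) = x := by
  simp [xPS]

theorem cc_aeval (lam : Fin k → ℂ) (x : ℂ) (p : MvPolynomial (Fin k ⊕ Fin 1) QA) :
    PowerSeries.constantCoeff (aeval (pt (lamPS lam) (xPS x)) p) = aeval (pt lam x) p := by
  have h : (PowerSeries.constantCoeff (R := ℂ)).comp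
      (aeval (pt (lamPS lam) (xPS x)) : MvPolynomial (Fin k ⊕ Fin 1) QA →ₐ[QA] PowerSeries ℂ).toRingHom =
      (aeval (pt lam x) : MvPolynomial (Fin k ⊕ Fin 1) QA →ₐ[QA] ℂ).toRingHom := by
    apply MvPolynomial.ringHom_ext
    · intro c
      have h1 : (C c : MvPolynomial (Fin k ⊕ Fin 1) QA) = algebraMap QA _ c := rfl
      simp only [RingHom.comp_apply, AlgHom.toRingHom_eq_coe, RingHom.coe_coe]
      rw [h1, AlgHom.commutes, AlgHom.commutes, algebraMap_PS, PowerSeries.constantCoeff_C]
      rfl
    · intro v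
      simp only [RingHom.comp_apply, AlgHom.toRingHom_eq_coe, RingHom.coe_coe, aeval_X]
      rcases v with v | v
      · simp [pt, lamPS]
      · simp [pt, xPS]
  exact congrArg (fun φ => φ p) h

/-- the program in the ring of power series -/
noncomputable def Dat.progPS (d : Dat k a) (j0 : Fin a) (lam : Fin k → ℂ) (x : ℂ) (hx : x ≠ 0)
    (hmin : ∀ j, j < j0 → aeval (pt lam x) (d.s j) = 0 → d.s j = 0) :
    Prog k a (PowerSeries ℂ) dPS :=
  d.prog j0 dPS (fun c => by rw [algebraMap_PS, dPS_apply, PowerSeries.derivative_C])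
    (lamPS lam) (fun _ => 0) (xPS x) (xPS x)⁻¹
    (fun v => by rw [mul_zero, dPS_apply, lamPS, PowerSeries.derivative_C])
    (PowerSeries.mul_inv_cancel _ (by rw [cc_xPS]; exact hx)) (fun z => z⁻¹)
    (fun j hj => by
      by_cases h : aeval (pt lam x) (d.s j) = 0
      · right
        rw [hmin j hj h, map_zero]
      · left
        apply PowerSeries.mul_inv_cancel
        rw [cc_aeval]
        exact h)
    (fun z => by rw [dPS_apply, dPS_apply, PowerSeries.derivative_inv'])

theorem cc_ev0 (d : Dat k a) (j0 : Fin a) (D : Derivation QA ℂ ℂ) (lam : Fin k → ℂ)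
    (hlam : ∀ v, lam v ≠ 0) (x : ℂ) (hx : x ≠ 0)
    (hmin : ∀ j, j < j0 → aeval (pt lam x) (d.s j) = 0 → d.s j = 0) (p : U0 k a) :
    PowerSeries.constantCoeff ((d.progPS j0 lam x hx hmin).ev0 p) =
      (d.progC j0 D lam hlam x hx).ev0 p := by
  have h : (PowerSeries.constantCoeff (R := ℂ)).comp (d.progPS j0 lam x hx hmin).ev0 =
      (d.progC j0 D lam hlam x hx).ev0 := by
    apply MvPolynomial.ringHom_ext
    · intro r
      have h1 : (C r : U0 k a) = (r : U0 k a) := by simp
      rw [h1, map_intCast, map_intCast]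
    · intro v
      rw [RingHom.comp_apply, Prog.ev0_X, Prog.ev0_X]
      cases v with
      | ev i b v => exact map_natCast _ _
      | ex i b => exact map_natCast _ _
      | es i b j => exact map_natCast _ _
      | M i b =>
        show PowerSeries.constantCoeff (if i ≤ j0 then _ else 0) = if i ≤ j0 then _ else 0
        split_ifs
        · exact cc_aeval _ _ _
        · exact map_zero _
      | I i =>
        show PowerSeries.constantCoeff (if i ≤ j0 then aeval (pt (lamPS lam) (xPS x)) (d.s i) else 0)⁻¹ =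
          (if i ≤ j0 then aeval (pt lam x) (d.s i) else 0)⁻¹
        rw [PowerSeries.constantCoeff_inv]
        congr 1
        split_ifs
        · exact cc_aeval _ _ _
        · exact map_zero _
      | X => exact cc_xPS x
      | J =>
        show PowerSeries.constantCoeff (xPS x)⁻¹ = x⁻¹
        rw [PowerSeries.constantCoeff_inv, cc_xPS]
  exact congrArg (fun φ => φ p) h

theorem iterate_ev0 {R : Type*} [CommRing R] {D : Derivation ℤ R R} (P : Prog k a R D)
    (hell : ∀ v, P.ell v = 0) (hx : D P.x = 1) (p : U0 k a) (i : ℕ) :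
    D^[i] (P.ev0 p) = P.ev0 ((dX0 k a)^[i] p) := by
  induction i with
  | zero => rfl
  | succ i ih => rw [Function.iterate_succ_apply', ih, P.ev0_der hell hx, Function.iterate_succ_apply']

theorem exists_ne (d : Dat k a) (j0 : Fin a) (D : Derivation QA ℂ ℂ) (lam : Fin k → ℂ)
    (hlam : ∀ v, lam v ≠ 0) (x : ℂ) (hx : x ≠ 0)
    (hmin : ∀ j, j < j0 → aeval (pt lam x) (d.s j) = 0 → d.s j = 0)
    (q : ℂ) (hq : aeval (pt lam q) (d.s j0) ≠ 0) :
    ∃ i, (d.progC j0 D lam hlam x hx).ev0 ((dX0 k a)^[i] (St k a j0)) ≠ 0 := by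
  by_contra hcon
  push Not at hcon
  apply hq
  set F := (d.progPS j0 lam x hx hmin).ev0 (St k a j0) with hF
  have hdx : dPS (d.progPS j0 lam x hx hmin).x = 1 := by
    show dPS (xPS x) = 1
    rw [dPS_apply, xPS, map_add, PowerSeries.derivative_C, PowerSeries.derivative_X, zero_add]
  have h1 : ∀ i, PowerSeries.constantCoeff (dPS^[i] F) = 0 := by
    intro i
    rw [hF, iterate_ev0 _ (fun _ => rfl) hdx, cc_ev0 d j0 D lam hlam x hx hmin]
    exact hcon i
  have h2 : F = 0 := by
    ext n
    have h3 := h1 n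
    have h4 : dPS^[n] F = (PowerSeries.derivative ℂ)^[n] F := rfl
    rw [h4, PowerSeries.constantCoeff_iterate_derivative] at h3
    rw [map_zero]
    exact (mul_eq_zero.mp h3).resolve_left (by exact_mod_cast Nat.factorial_ne_zero n)
  have h3 : F = aeval (pt (lamPS lam) (xPS x)) (d.s j0) := by
    rw [hF, Prog.ev0_St]
    show (if j0 ≤ j0 then _ else 0) = _
    rw [if_pos le_rfl]
  set h : Polynomial ℂ := aeval (pt (fun v => Polynomial.C (lam v)) (Polynomial.C x + Polynomial.X))
    (d.s j0) with hh
  have h4 : (h : PowerSeries ℂ) = F := by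
    have h5 : (Polynomial.coeToPowerSeries.ringHom (R := ℂ)).comp
        (aeval (pt (fun v => Polynomial.C (lam v)) (Polynomial.C x + Polynomial.X)) :
          MvPolynomial (Fin k ⊕ Fin 1) QA →ₐ[QA] Polynomial ℂ).toRingHom =
        (aeval (pt (lamPS lam) (xPS x)) : MvPolynomial (Fin k ⊕ Fin 1) QA →ₐ[QA] PowerSeries ℂ).toRingHom := by
      apply MvPolynomial.ringHom_ext
      · intro c
        have h1 : (C c : MvPolynomial (Fin k ⊕ Fin 1) QA) = algebraMap QA _ c := rfl
        simp only [RingHom.comp_apply, AlgHom.toRingHom_eq_coe, RingHom.coe_coe]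
        rw [h1, AlgHom.commutes, AlgHom.commutes, algebraMap_PS]
        exact Polynomial.coe_C _
      · intro v
        simp only [RingHom.comp_apply, AlgHom.toRingHom_eq_coe, RingHom.coe_coe, aeval_X]
        rcases v with v | v
        · simp [pt, lamPS]
        · simp [pt, xPS]
    rw [h3]
    exact congrArg (fun φ => φ (d.s j0)) h5
  have h5 : h = 0 := by
    rw [h2] at h4
    exact Polynomial.coe_injective ℂ (by rw [h4, Polynomial.coe_zero])
  have h6 : Polynomial.eval (q - x) h = aeval (pt lam q) (d.s j0) := by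
    have h7 : (Polynomial.evalRingHom (q - x)).comp
        (aeval (pt (fun v => Polynomial.C (lam v)) (Polynomial.C x + Polynomial.X)) :
          MvPolynomial (Fin k ⊕ Fin 1) QA →ₐ[QA] Polynomial ℂ).toRingHom =
        (aeval (pt lam q) : MvPolynomial (Fin k ⊕ Fin 1) QA →ₐ[QA] ℂ).toRingHom := by
      apply MvPolynomial.ringHom_ext
      · intro c
        have h1 : (C c : MvPolynomial (Fin k ⊕ Fin 1) QA) = algebraMap QA _ c := rfl
        simp only [RingHom.comp_apply, AlgHom.toRingHom_eq_coe, RingHom.coe_coe]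
        rw [h1, AlgHom.commutes, AlgHom.commutes]
        exact Polynomial.eval_C
      · intro v
        simp only [RingHom.comp_apply, AlgHom.toRingHom_eq_coe, RingHom.coe_coe, aeval_X]
        rcases v with v | v
        · simp [pt]
        · simp [pt]
    exact congrArg (fun φ => φ (d.s j0)) h7
  rw [← h6, h5, Polynomial.eval_zero]

end PS

/-- There is a nonzero differential polynomial of bounded order and degree that vanishes at all the
numbers satisfying a relation of bounded additive complexity together with `lam`. -/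
theorem exists_Phi (k a : ℕ) : ∃ N d : ℕ, ∀ (D : Derivation QA ℂ ℂ) (Dg : ℕ∞) (lam : Fin k → ℂ),
    NoCx a Dg lam → ∃ Φ : MvPolynomial (Fin (N + 1)) ℂ, Φ ≠ 0 ∧ Φ.totalDegree ≤ d ∧
      ∀ x : ℂ, ¬ NoCx a Dg (Sum.elim lam fun _ : Fin 1 => x) →
        eval (fun j : Fin (N + 1) => D^[(j : ℕ)] x) Φ = 0 := by
  classical
  obtain ⟨d, hd⟩ : ∃ d : Fin a → ℕ, ∀ i0 : Fin a, ∀ (D : Derivation ℤ ℂ ℂ) (ell : Fin k → ℂ),
      ∃ Φ : MvPolynomial (Fin (Fintype.card (V0 k a) + 1)) ℂ, Φ ≠ 0 ∧ Φ.totalDegree ≤ d i0 ∧
      ∀ P : Prog k a ℂ D, P.ell = ell → P.s i0 = 0 →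
        (∃ i, P.ev0 ((dX0 k a)^[i] (St k a i0)) ≠ 0) →
        eval (fun j : Fin (Fintype.card (V0 k a) + 1) => D^[(j : ℕ)] P.x) Φ = 0 := by
    choose d hd using fun i0 => exists_dpoly k a i0
    exact ⟨d, hd⟩
  set N := Fintype.card (V0 k a) with hN
  refine ⟨N, 1 + ∑ i, d i, ?_⟩
  intro D Dg lam hlam
  by_cases hDg : 1 ≤ Dg
  · have hlam0 : ∀ v, lam v ≠ 0 := by
      intro v h0
      refine hlam (X v) (X_ne_zero v) (cx_X a Dg hDg v) ?_
      rw [aeval_X, h0]
    choose Φ hΦ0 hΦd hΦ using fun i0 => hd i0 (D.restrictScalars ℤ) (fun v => D (lam v) / lam v)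
    refine ⟨X 0 * ∏ i, Φ i, ?_, ?_, ?_⟩
    · exact mul_ne_zero (X_ne_zero _) (Finset.prod_ne_zero_iff.mpr fun i _ => hΦ0 i)
    · refine (totalDegree_mul _ _).trans (add_le_add (totalDegree_X _).le ?_)
      exact (totalDegree_finsetProd _ _).trans (Finset.sum_le_sum fun i _ => hΦd i)
    · intro x hx
      rw [map_mul, eval_X, map_prod]
      by_cases hx0 : x = 0
      · rw [hx0]
        simp
      · rw [NoCx] at hx
        push Not at hx
        obtain ⟨f, hf0, ⟨s, hs, hfd, e, c, e', -, hf⟩, hev⟩ := hx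
        have hex : ∃ j : Fin a, s j ≠ 0 ∧ aeval (pt lam x) (s j) = 0 := by
          rw [hf, map_mul, map_prod] at hev
          have h1 : (aeval (Sum.elim lam fun _ : Fin 1 => x)) (monomial e c) ≠ 0 := by
            rw [aeval_monomial, Finsupp.prod]
            refine mul_ne_zero ?_ (Finset.prod_ne_zero_iff.mpr fun v _ => pow_ne_zero _ ?_)
            · intro h0
              have h2 : c = 0 := by
                apply (algebraMap QA ℂ).injective
                rw [h0, map_zero]
              apply hf0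
              rw [hf, h2, map_zero, zero_mul]
            · rcases v with v | v
              · exact hlam0 v
              · exact hx0
          have h2 := (mul_eq_zero.mp hev).resolve_left h1
          rw [Finset.prod_eq_zero_iff] at h2
          obtain ⟨j, -, hj⟩ := h2
          rw [map_pow] at hj
          have hej : e' j ≠ 0 := by
            intro h0
            rw [h0, pow_zero] at hj
            exact one_ne_zero hj
          refine ⟨j, ?_, pow_eq_zero_iff hej |>.mp hj⟩
          intro h0
          apply hf0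
          rw [hf, Finset.prod_eq_zero (mem_univ j), mul_zero]
          rw [h0, zero_pow hej]
        obtain ⟨j0, ⟨hj1, hj2⟩, hjmin⟩ := WellFounded.has_min (wellFounded_lt : WellFounded ((· < ·) : Fin a → Fin a → Prop))
          {j : Fin a | s j ≠ 0 ∧ aeval (pt lam x) (s j) = 0} hex
        have hmin : ∀ j, j < j0 → aeval (pt lam x) (s j) = 0 → s j = 0 := by
          intro j hj h0
          by_contra h1
          exact hjmin j ⟨h1, h0⟩ hj
        obtain ⟨q, hq⟩ := exists_special hlam hj1 (Cx.step hs j0)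
        obtain ⟨dt, rfl⟩ := exists_dat s (fun i => (hs i).2)
        have h3 := exists_ne dt j0 D lam hlam0 x hx0 hmin q hq
        have h4 := hΦ j0 (dt.progC j0 D lam hlam0 x hx0) rfl (by
          show (if j0 ≤ j0 then _ else 0) = 0
          rw [if_pos le_rfl]
          exact hj2) h3
        rw [Finset.prod_eq_zero (mem_univ j0), mul_zero]
        exact h4
  · refine ⟨1, one_ne_zero, by rw [totalDegree_one]; exact Nat.zero_le _, ?_⟩
    intro x hx
    exfalso
    apply hx
    intro f hf0 hc hev
    obtain ⟨s, hs, hfd, -⟩ := hc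
    have h1 : f.totalDegree = 0 := by
      have h2 : Dg < 1 := not_le.mp hDg
      have h3 : Dg = 0 := Order.lt_one_iff.mp h2
      rw [h3] at hfd
      have h4 : f.totalDegree ≤ 0 := by exact_mod_cast hfd
      omega
    rw [totalDegree_eq_zero_iff_eq_C] at h1
    rw [h1, aeval_C] at hev
    apply hf0
    rw [h1]
    have h2 : coeff 0 f = 0 := by
      apply (algebraMap QA ℂ).injective
      rw [hev, map_zero]
    rw [h2, C_0]

end MP60829e.AC
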