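import Mathlib
import Pool.Agent.Lib.MP_60829e_nt.AC.Point
import Pool.Agent.Lib.MP_60829e_nt.Rate.GridBad

/-! The integers whose logarithm satisfies a relation of bounded additive complexity contain no
large boxes of primes. -/

open MvPolynomial Finset

namespace MP60829e.AC

open MP60829e.Dens (QA isAlgClosed_QA vanish)
open MP60829e.Rate (GridFree log_diff_indep)

theorem gridFree_mono {r t r' t' : ℕ} (hr : r ≤ r') (ht : t ≤ t') (ht0 : 1 ≤ t) {X : Set ℕ}
    (h : GridFree r t X) : GridFree r' t' X := by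
  classical
  intro m hm q hqp hqi
  let z : Fin t' := ⟨0, by omega⟩
  set M : ℕ := ∏ i ∈ univ.filter (fun i : Fin r' => ¬ (i : ℕ) < r), q i z with hM
  have hMpos : 1 ≤ M := Finset.prod_pos fun i _ => (hqp i z).pos
  obtain ⟨c, hc⟩ := h (m * M) (Nat.mul_pos hm hMpos) (fun i a => q (Fin.castLE hr i) (Fin.castLE ht a))
    (fun i a => hqp _ _) (fun i a a' haa => by
      have := hqi _ haa
      apply Fin.ext
      have := congrArg Fin.val this
      simpa using this)
  let c' : Fin r' → Fin t' := fun i => if h : (i : ℕ) < r then Fin.castLE ht (c ⟨i, h⟩) else z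
  refine ⟨c', ?_⟩
  have h1 : m * ∏ i, q i (c' i) = m * M * ∏ i, q (Fin.castLE hr i) (Fin.castLE ht (c i)) := by
    rw [mul_assoc]
    congr 1
    rw [← Finset.prod_filter_mul_prod_filter_not (univ : Finset (Fin r')) (fun i => (i : ℕ) < r),
      mul_comm]
    congr 1
    · rw [hM]
      refine Finset.prod_congr rfl fun i hi => ?_
      have := (mem_filter.mp hi).2
      simp only [c', dif_neg this]
    · symm
      refine Finset.prod_bij (fun j _ => Fin.castLE hr j) ?_ ?_ ?_ ?_
      · intro j _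
        rw [mem_filter]
        exact ⟨mem_univ _, j.2⟩
      · intro j _ j' _ h
        apply Fin.ext
        have := congrArg Fin.val h
        simpa using this
      · intro i hi
        exact ⟨⟨i, (mem_filter.mp hi).2⟩, mem_univ _, rfl⟩
      · intro j _
        have h1 : ((Fin.castLE hr j : Fin r') : ℕ) < r := j.2
        simp only [c', dif_pos h1]
        rfl
  rw [h1]
  exact hc

/-- the integers whose logarithm satisfies a relation -/
def BadC {k : ℕ} (a : ℕ) (Dg : ℕ∞) (lam : Fin k → ℂ) (u : ℂ) : Set ℕ :=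
  {b : ℕ | ¬ NoCx a Dg (Sum.elim lam fun _ : Fin 1 => u + ((Real.log b : ℝ) : ℂ))}

theorem exists_gridFree (k a : ℕ) : ∃ r t : ℕ, 1 ≤ r ∧ 2 ≤ t ∧ ∀ (Dg : ℕ∞) (lam : Fin k → ℂ),
    NoCx a Dg lam → ∀ u : ℂ, GridFree r t (BadC a Dg lam u) := by
  classical
  obtain ⟨D, hD⟩ := exists_der_complex
  obtain ⟨N, d, hNd⟩ := exists_Phi k a
  refine ⟨d + 1, N + 2, by omega, by omega, ?_⟩
  intro Dg lam hlam u m hm q hqp hqi
  obtain ⟨Φ, hΦ0, hΦd, hΦ⟩ := hNd D Dg lam hlam
  by_contra hcon
  push Not at hcon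
  let J : ℂ →ₗ[QA] (Fin (N + 1) → ℂ) := LinearMap.pi fun i => (D : ℂ →ₗ[QA] ℂ) ^ (i : ℕ)
  have hJ : ∀ x i, J x i = D^[(i : ℕ)] x := by
    intro x i
    simp only [J, LinearMap.pi_apply, Module.End.pow_apply]
    rfl
  let w : Fin (d + 1) → Fin (N + 2) → ℂ := fun i a => ((Real.log (q i a : ℕ) : ℝ) : ℂ)
  apply hΦ0
  refine vanish (M := N + 1) (d + 1) Φ (by omega) (fun j a => J (w j a)) ?_
    (J (u + ((Real.log m : ℝ) : ℂ))) ?_
  · intro j
    let q' : Fin (N + 1 + 1) → Nat.Primes := fun a => ⟨q j a, hqp _ _⟩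
    have hq' : Function.Injective q' := by
      intro a a' h
      exact hqi j (congrArg (fun x : Nat.Primes => (x : ℕ)) h)
    have h1 := log_diff_indep (N + 1) q' hq'
    have h2 := jets_indep D hD (N + 1) _ h1
    have h3 : LinearIndependent ℂ (fun a : Fin (N + 1) => J (w j a.succ) - J (w j 0)) := by
      have h4 : (fun a : Fin (N + 1) => J (w j a.succ) - J (w j 0)) =
          (fun i : Fin (N + 1) => fun l : Fin (N + 1) => D^[(l : ℕ)] (
            ((Real.log (q' i.succ : ℕ) : ℝ) : ℂ) - ((Real.log (q' 0 : ℕ) : ℝ) : ℂ))) := by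
        funext i l
        rw [← map_sub, hJ]
      rw [h4]
      exact h2
    exact h3.span_eq_top_of_card_eq_finrank' (by simp)
  · intro c
    have h1 := hcon c
    have h2 := hΦ _ h1
    rw [← h2]
    congr 1
    congr 1
    funext l
    have hlog : Real.log ((m * ∏ i, q i (c i) : ℕ) : ℝ) =
        Real.log m + ∑ i, Real.log (q i (c i) : ℕ) := by
      push_cast
      rw [Real.log_mul, Real.log_prod]
      · intro j _
        exact_mod_cast (hqp j _).ne_zero
      · exact_mod_cast (by omega : m ≠ 0)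
      · rw [Finset.prod_ne_zero_iff]
        intro j _
        exact_mod_cast (hqp j _).ne_zero
    have h5 : u + ((Real.log ((m * ∏ i, q i (c i) : ℕ) : ℝ) : ℝ) : ℂ) =
        u + ((Real.log m : ℝ) : ℂ) + ∑ i, w i (c i) := by
      rw [hlog, Complex.ofReal_add, Complex.ofReal_sum]
      ring
    rw [← map_sum, ← map_add, hJ, h5]

end MP60829e.AC
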