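import Mathlib
import Pool.Agent.Lib.MP_60829e_nt.AC.Abs
import Pool.Agent.Lib.MP_60829e_nt.AC.Grid

/-! The final theorem on relations of bounded additive complexity. -/

open Finset MvPolynomial

namespace MP60829e.AC

open MP60829e.Rate
open MP60829e.Dens (QA isAlgClosed_QA)

/-- The bound for the bad tuples of a hereditary property. -/
theorem abs_bound (n k r t : ℕ) (hr1 : 1 ≤ r) (ht2 : 2 ≤ t)
    (N : (ι : Type) → (ι → ℂ) → Prop) (hN : Her N) (lam : Fin k → ℂ) (hlam : N _ lam)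
    (hgrid : ∀ k' ≤ k + (n - 1), ∀ lam' : Fin k' → ℂ, N _ lam' → ∀ u', GridFree r t (BadA N lam' u'))
    (hone : k = 0 → ∀ u', ∀ S : Finset ℕ, (∀ b ∈ S, 1 ≤ b ∧ b ∈ BadA N lam u') → S.card ≤ 1)
    (u : Fin n → ℂ) (B : ℕ) (hB : 16 ≤ B) :
    ((BadN N lam u B).card : ℝ) ≤
      ((n + 1).factorial * ((100000 * t) ^ (2 * r) + 4)) * Real.log (Real.log B) ^ (2 * r) /
        Real.log B ^ (if k = 0 then 2 else 1) * B ^ n := by
  classical
  have hL := log_ge B hB
  have hl := loglog_ge B hB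
  have he := Real.exp_one_gt_d9
  set L := Real.log B with hLdef
  set l := Real.log L with hldef
  have hL2 : 2 ≤ L := by linarith
  have hL0 : 0 < L := by linarith
  have hB0 : (0 : ℝ) < B := by exact_mod_cast (by omega : 0 < B)
  have hRHS : 0 ≤ ((n + 1).factorial * ((100000 * (t : ℝ)) ^ (2 * r) + 4)) * l ^ (2 * r) /
        L ^ (if k = 0 then 2 else 1) * (B : ℝ) ^ n := by
    positivity
  rcases Nat.eq_zero_or_pos n with hn | hn
  · have h1 : BadN N lam u B = ∅ := by
      rw [Finset.eq_empty_iff_forall_notMem]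
      intro b hb
      rw [mem_BadN] at hb
      apply hb.2
      subst hn
      have h2 := hN _ _ lam (Sum.elim id (fun i : Fin 0 => i.elim0) : Fin k ⊕ Fin 0 → Fin k) (by
        rintro (a | a) (a' | a') h
        · exact congrArg Sum.inl h
        · exact a'.elim0
        · exact a.elim0
        · exact a.elim0) hlam
      convert h2 using 1
      funext t
      rcases t with a | a
      · rfl
      · exact a.elim0
    rw [h1]
    simpa using hRHS
  set s := blk r t L with hs
  have hs2 : 2 ≤ s := blk_two_le r t L ht2 (by linarith)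
  set A : ℝ := 100000 * t * l with hA
  have ht2' : (2 : ℝ) ≤ t := by exact_mod_cast ht2
  have hA1 : 1 ≤ A := by
    rw [hA]; nlinarith
  set τ : ℝ := 2 / (1 + L) ^ 2 with hτ
  set ν : ℝ := A ^ r / L with hν
  have hfew : ((Sm s r B).card : ℝ) ≤ B * ν := few_bound r t B ht2 hr1 hB
  have htyp : ∀ k' ≤ k + (n - 1), ∀ lam' : Fin k' → ℂ, N _ lam' → ∀ u', ∀ S : Finset ℕ,
      (∀ b ∈ S, 1 ≤ b ∧ b ≤ B ∧ b ∈ BadA N lam' u' ∧ r ≤ om s b) → (S.card : ℝ) ≤ B * τ := by
    intro k' hk' lam' hlam' u' S hS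
    have h1 := typical r t s B (by omega) (BadA N lam' u') (hgrid k' hk' lam' hlam' u')
      (2 / (1 + L) ^ (r + 2)) (by positivity) (fun T hT => blk_density r t L ht2 (by linarith) T hT)
    have h2 : (S.card : ℝ) ≤ (((Icc 1 B).filter (fun b => b ∈ BadA N lam' u' ∧ r ≤ om s b)).card : ℝ) := by
      have : S ⊆ (Icc 1 B).filter (fun b => b ∈ BadA N lam' u' ∧ r ≤ om s b) := by
        intro b hb
        obtain ⟨h3, h4, h5, h6⟩ := hS b hb
        rw [mem_filter, mem_Icc]
        exact ⟨⟨h3, h4⟩, h5, h6⟩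
      exact_mod_cast card_le_card this
    refine (h2.trans h1).trans (le_of_eq ?_)
    rw [← hLdef, hτ, pow_add]
    have : (1 + L) ≠ 0 := by positivity
    field_simp
  set ex : ℕ := if k = 0 then 2 else 1 with hex
  set G : ℝ := (A ^ (2 * r) + 4) / L ^ ex with hG
  have hG0 : 0 ≤ G := by positivity
  have hτL : τ ≤ 2 / L ^ 2 := by
    rw [hτ]
    apply div_le_div_of_nonneg_left (by norm_num) (by positivity)
    apply pow_le_pow_left₀ hL0.le
    linarith
  have hLex : L ^ ex ≤ L ^ 2 := by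
    apply pow_le_pow_right₀ (by linarith)
    rw [hex]; split_ifs <;> omega
  have hH4 : 2 * τ + ν ^ 2 ≤ G := by
    have h1 : ν ^ 2 = A ^ (2 * r) / L ^ 2 := by
      rw [hν, div_pow, ← pow_mul, mul_comm r 2]
    have h2 : 2 * τ + ν ^ 2 ≤ (A ^ (2 * r) + 4) / L ^ 2 := by
      rw [h1, add_div]
      have : 2 * τ ≤ 4 / L ^ 2 := by
        calc 2 * τ ≤ 2 * (2 / L ^ 2) := by linarith
          _ = 4 / L ^ 2 := by ring
      linarith
    refine h2.trans ?_
    rw [hG]
    exact div_le_div_of_nonneg_left (by positivity) (by positivity) hLex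
  have hH3 : ∀ u', ∀ S : Finset ℕ, (∀ b ∈ S, 1 ≤ b ∧ b ≤ B ∧ b ∈ BadA N lam u') →
      (S.card : ℝ) ≤ B * G := by
    intro u' S hS
    by_cases hk : k = 0
    · have h1 := hone hk u' S (fun b hb => ⟨(hS b hb).1, (hS b hb).2.2⟩)
      have h2 : (S.card : ℝ) ≤ 1 := by exact_mod_cast h1
      refine h2.trans ?_
      have h3 : G = (A ^ (2 * r) + 4) / L ^ 2 := by
        rw [hG, hex, if_pos hk]
      have h4 : L ^ 2 ≤ 4 * B := by
        have h5 : L ≤ 2 * (Real.sqrt B) := by
          have h6 : L = 2 * Real.log (Real.sqrt B) := by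
            rw [Real.log_sqrt hB0.le]; ring
          have h7 : Real.log (Real.sqrt B) ≤ Real.sqrt B - 1 :=
            Real.log_le_sub_one_of_pos (Real.sqrt_pos.mpr hB0)
          linarith
        calc L ^ 2 ≤ (2 * Real.sqrt B) ^ 2 := pow_le_pow_left₀ hL0.le h5 2
          _ = 4 * B := by rw [mul_pow, Real.sq_sqrt hB0.le]; norm_num
      rw [h3, mul_div_assoc', le_div_iff₀ (by positivity), one_mul]
      have h8 : 0 ≤ (B : ℝ) * A ^ (2 * r) := by positivity
      nlinarith
    · have h1 : ex = 1 := by rw [hex, if_neg hk]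
      have h2 : (S.card : ℝ) ≤ ((S.filter (fun b => r ≤ om s b)).card : ℝ) + ((Sm s r B).card : ℝ) := by
        have h3 : S ⊆ (S.filter (fun b => r ≤ om s b)) ∪ (Sm s r B) := by
          intro b hb
          rw [mem_union, mem_filter, Sm, mem_filter, mem_Icc]
          by_cases h4 : r ≤ om s b
          · exact Or.inl ⟨hb, h4⟩
          · exact Or.inr ⟨⟨(hS b hb).1, (hS b hb).2.1⟩, by omega⟩
        have h4 := (card_le_card h3).trans (card_union_le _ _)
        exact_mod_cast h4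
      have h3 := htyp k (by omega) lam hlam u' (S.filter (fun b => r ≤ om s b)) (fun b hb => by
        rw [mem_filter] at hb
        exact ⟨(hS b hb.1).1, (hS b hb.1).2.1, (hS b hb.1).2.2, hb.2⟩)
      refine h2.trans ((add_le_add h3 hfew).trans ?_)
      rw [← mul_add]
      refine mul_le_mul_of_nonneg_left ?_ hB0.le
      rw [hG, h1, pow_one, add_div, hν]
      have h4 : τ ≤ 4 / L := by
        refine hτL.trans ?_
        rw [div_le_div_iff₀ (by positivity) hL0]
        nlinarith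
      have h5 : A ^ r ≤ A ^ (2 * r) := pow_le_pow_right₀ hA1 (by omega)
      have h6 : A ^ r / L ≤ A ^ (2 * r) / L := div_le_div_of_nonneg_right h5 hL0.le
      linarith
  have hmain := tuple_bound_abs hN k r s B (n - 1) lam hlam (by omega) τ ν G (by positivity) hG0 htyp
    hfew hH3 hH4 n (by omega) u
  refine hmain.trans ?_
  rw [mul_comm ((B : ℝ) ^ n)]
  refine mul_le_mul_of_nonneg_right ?_ (by positivity)
  rw [hG, mul_div_assoc']
  refine div_le_div_of_nonneg_right ?_ (by positivity)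
  rw [mul_assoc]
  refine mul_le_mul_of_nonneg_left ?_ (by positivity)
  have h1 : (1 : ℝ) ≤ l ^ (2 * r) := one_le_pow₀ hl
  rw [hA, mul_pow, add_mul]
  linarith

theorem her_noCx (a : ℕ) (Dg : ℕ∞) : Her (fun _ x => NoCx a Dg x) :=
  fun _ _ _ e he h => NoCx.comp_inj h e he

/-- At most one integer `b` has `u + log b` algebraic. -/
theorem badA_empty_card (a : ℕ) (Dg : ℕ∞) (lam : Fin 0 → ℂ) (u : ℂ) (S : Finset ℕ)
    (hS : ∀ b ∈ S, 1 ≤ b ∧ b ∈ BadA (fun _ x => NoCx a Dg x) lam u) : S.card ≤ 1 := by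
  classical
  obtain ⟨D, hD⟩ : ∃ D : ℕ, ∀ b ∈ S, b ∈ Bad1 D lam u := by
    have h1 : ∀ b : ℕ, ∃ D : ℕ, b ∈ S → b ∈ Bad1 D lam u := by
      intro b
      by_cases hb : b ∈ S
      · have h2 := (hS b hb).2
        simp only [BadA, Set.mem_ofPred_eq, NoCx] at h2
        push Not at h2
        obtain ⟨f, hf0, _, hev⟩ := h2
        refine ⟨f.totalDegree, fun _ => ?_⟩
        intro hno
        rw [MP60829e.Dens.noRel_iff] at hno
        exact hno f hf0 le_rfl hev
      · exact ⟨0, fun h => absurd h hb⟩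
    choose D hD using h1
    refine ⟨∑ b ∈ S, D b, fun b hb => ?_⟩
    have h2 := hD b hb
    intro hno
    apply h2
    rw [MP60829e.Dens.noRel_iff] at hno ⊢
    intro f hf0 hfd hev
    exact hno f hf0 (hfd.trans (Finset.single_le_sum (fun _ _ => Nat.zero_le _) hb)) hev
  exact bad1_empty_card D lam u S (fun b hb => ⟨(hS b hb).1, hD b hb⟩)

theorem final (n k a : ℕ) : ∃ C : ℕ, ∀ (D : ℕ∞) (lam : Fin k → ℂ), NoCx a D lam →
    ∀ (u : Fin n → ℂ) (B : ℕ), 16 ≤ B →
      ({b : Fin n → ℕ | (∀ i, 1 ≤ b i ∧ b i ≤ B) ∧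
        ¬ NoCx a D (Sum.elim lam fun i => u i + ((Real.log (b i) : ℝ) : ℂ))}.ncard : ℝ) ≤
        C * Real.log (Real.log B) ^ C / Real.log B ^ (if k = 0 then 2 else 1) * B ^ n := by
  classical
  choose r t hr ht hgrid using fun k' => exists_gridFree k' a
  set r0 := ∑ k' ∈ range (k + n + 1), r k' with hr0
  set t0 := ∑ k' ∈ range (k + n + 1), t k' with ht0
  have hrle : ∀ k' ≤ k + n, r k' ≤ r0 := fun k' hk' =>
    Finset.single_le_sum (f := r) (fun _ _ => Nat.zero_le _) (mem_range.mpr (by omega))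
  have htle : ∀ k' ≤ k + n, t k' ≤ t0 := fun k' hk' =>
    Finset.single_le_sum (f := t) (fun _ _ => Nat.zero_le _) (mem_range.mpr (by omega))
  have hr01 : 1 ≤ r0 := (hr 0).trans (hrle 0 (by omega))
  have ht02 : 2 ≤ t0 := (ht 0).trans (htle 0 (by omega))
  set C1 : ℕ := (n + 1).factorial * ((100000 * t0) ^ (2 * r0) + 4) with hC1
  refine ⟨C1 + 2 * r0, ?_⟩
  intro D lam hlam u B hB
  have h1 := abs_bound n k r0 t0 hr01 ht02 (fun _ x => NoCx a D x) (her_noCx a D) lam hlam
    (fun k' hk' lam' hlam' u' => gridFree_mono (hrle k' (by omega)) (htle k' (by omega))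
      (by have := ht k'; omega) (hgrid k' D lam' hlam' u'))
    (fun hk u' S hS => by
      subst hk
      exact badA_empty_card a D lam u' S hS) u B hB
  have h2 : {b : Fin n → ℕ | (∀ i, 1 ≤ b i ∧ b i ≤ B) ∧
        ¬ NoCx a D (Sum.elim lam fun i => u i + ((Real.log (b i) : ℝ) : ℂ))} =
      (BadN (fun _ x => NoCx a D x) lam u B : Set (Fin n → ℕ)) := by
    ext b
    rw [mem_coe, mem_BadN]
    rfl
  rw [h2, Set.ncard_coe_finset]
  refine h1.trans ?_
  have hL := log_ge B hB
  have hl := loglog_ge B hB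
  have he := Real.exp_one_gt_d9
  have hL0 : 0 < Real.log B := by linarith
  refine mul_le_mul_of_nonneg_right ?_ (by positivity)
  refine div_le_div_of_nonneg_right ?_ (by positivity)
  have h3 : (((n + 1).factorial * ((100000 * (t0 : ℝ)) ^ (2 * r0) + 4) : ℝ)) = (C1 : ℝ) := by
    rw [hC1]; push_cast; ring
  rw [h3]
  have h4 : (C1 : ℝ) ≤ ((C1 + 2 * r0 : ℕ) : ℝ) := by exact_mod_cast Nat.le_add_right _ _
  have h5 : Real.log (Real.log B) ^ (2 * r0) ≤ Real.log (Real.log B) ^ (C1 + 2 * r0) :=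
    pow_le_pow_right₀ hl (Nat.le_add_left _ _)
  exact mul_le_mul h4 h5 (by positivity) (by positivity)

end MP60829e.AC
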