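import Mathlib
import Pool.Agent.Lib.MP_60829e_nt.AC.Grid
import Pool.Agent.Lib.MP_60829e_nt.AC.Abs
import Pool.Agent.Lib.MP_60829e_nt.AC.Elim2
import Pool.Agent.Lib.MP_60829e_nt.AC.Count2

/-! Linear combinations of finitely many fixed logarithms. -/

open MvPolynomial Finset

namespace MP60829e.AC

open MP60829e.Dens (QA isAlgClosed_QA)

/-- a nonzero number in a relation gives a program whose last step vanishes, not identically -/
theorem exists_prog {k a : ℕ} (D : Derivation QA ℂ ℂ) {Dg : ℕ∞} {lam : Fin k → ℂ}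
    (hlam : NoCx a Dg lam) (hDg : 1 ≤ Dg) {x : ℂ} (hx0 : x ≠ 0)
    (hx : ¬ NoCx a Dg (Sum.elim lam fun _ : Fin 1 => x)) :
    ∃ (j0 : Fin a) (P : Prog k a ℂ (D.restrictScalars ℤ)), P.ell = (fun v => D (lam v) / lam v) ∧
      P.x = x ∧ P.s j0 = 0 ∧ ∃ i, P.ev0 ((dX0 k a)^[i] (St k a j0)) ≠ 0 := by
  classical
  have hlam0 : ∀ v, lam v ≠ 0 := by
    intro v h0
    refine hlam (X v) (X_ne_zero v) (cx_X a Dg hDg v) ?_
    rw [aeval_X, h0]
  rw [NoCx] at hx
  push Not at hx
  obtain ⟨f, hf0, ⟨s, hs, hfd, e, c, e', -, hf⟩, hev⟩ := hx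
  have hex : ∃ j : Fin a, s j ≠ 0 ∧ aeval (pt lam x) (s j) = 0 := by
    rw [hf, map_mul, map_prod] at hev
    have h1 : (aeval (Sum.elim lam fun _ : Fin 1 => x)) (monomial e c) ≠ 0 := by
      rw [aeval_monomial, Finsupp.prod]
      refine mul_ne_zero ?_ (Finset.prod_ne_zero_iff.mpr fun v _ => pow_ne_zero _ ?_)
      · intro h0
        have h2 : c = 0 := by
          apply (algebraMap QA ℂ).injective
          rw [h0, map_zero]
        apply hf0
        rw [hf, h2, map_zero, zero_mul]
      · rcases v with v | v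
        · exact hlam0 v
        · exact hx0
    have h2 := (mul_eq_zero.mp hev).resolve_left h1
    rw [Finset.prod_eq_zero_iff] at h2
    obtain ⟨j, -, hj⟩ := h2
    rw [map_pow] at hj
    have hej : e' j ≠ 0 := by
      intro h0
      rw [h0, pow_zero] at hj
      exact one_ne_zero hj
    refine ⟨j, ?_, pow_eq_zero_iff hej |>.mp hj⟩
    intro h0
    apply hf0
    rw [hf, Finset.prod_eq_zero (mem_univ j), mul_zero]
    rw [h0, zero_pow hej]
  obtain ⟨j0, ⟨hj1, hj2⟩, hjmin⟩ := WellFounded.has_min
    (wellFounded_lt : WellFounded ((· < ·) : Fin a → Fin a → Prop))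
    {j : Fin a | s j ≠ 0 ∧ aeval (pt lam x) (s j) = 0} hex
  have hmin : ∀ j, j < j0 → aeval (pt lam x) (s j) = 0 → s j = 0 := by
    intro j hj h0
    by_contra h1
    exact hjmin j ⟨h1, h0⟩ hj
  obtain ⟨q, hq⟩ := exists_special hlam hj1 (Cx.step hs j0)
  obtain ⟨dt, rfl⟩ := exists_dat s (fun i => (hs i).2)
  have h3 := exists_ne dt j0 D lam hlam0 x hx0 hmin q hq
  refine ⟨j0, dt.progC j0 D lam hlam0 x hx0, rfl, rfl, ?_, h3⟩
  show (if j0 ≤ j0 then _ else 0) = 0
  rw [if_pos le_rfl]
  exact hj2

/-- below degree one there are no relations -/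
theorem noCx_of_lt {ι : Type} {a : ℕ} {Dg : ℕ∞} (hDg : ¬ 1 ≤ Dg) (x : ι → ℂ) : NoCx a Dg x := by
  intro f hf0 hc hev
  obtain ⟨s, hs, hfd, -⟩ := hc
  have h1 : f.totalDegree = 0 := by
    have h2 : Dg < 1 := not_le.mp hDg
    have h3 : Dg = 0 := Order.lt_one_iff.mp h2
    rw [h3] at hfd
    have h4 : f.totalDegree ≤ 0 := by exact_mod_cast hfd
    omega
  rw [totalDegree_eq_zero_iff_eq_C] at h1
  rw [h1, aeval_C] at hev
  apply hf0
  rw [h1]
  have h2 : coeff 0 f = 0 := by
    apply (algebraMap QA ℂ).injective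
    rw [hev, map_zero]
  rw [h2, C_0]

/-- the exceptional set of one linear combination -/
def Exc {k e : ℕ} (a : ℕ) (Dg : ℕ∞) (lam : Fin k → ℂ) (l : Fin e → ℂ) (u : ℂ) : Set (Fin e → ℂ) :=
  {c | (∀ i, c i ∈ Set.range (algebraMap QA ℂ)) ∧
    ¬ NoCx a Dg (Sum.elim lam fun _ : Fin 1 => u + ∑ j, c j * l j)}

theorem dep_single (k a e : ℕ) : ∃ d : ℕ, ∀ (Dg : ℕ∞) (lam : Fin k → ℂ), NoCx a Dg lam →
    ∀ (l : Fin e → ℂ), LinearIndependent QA l → ∀ u : ℂ,
      DepOn ℂ e (Fintype.card (V0 k a)) d (Exc a Dg lam l u) := by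
  classical
  obtain ⟨D, hD⟩ := exists_der_complex
  choose d hd using fun i0 : Fin a => exists_cpoly k a e i0
  refine ⟨1 + ∑ i, d i, ?_⟩
  intro Dg lam hlam l hl u i hi
  by_cases hDg : 1 ≤ Dg
  · -- jets
    let J : ℂ →ₗ[QA] (Fin e → ℂ) := LinearMap.pi fun i => (D : ℂ →ₗ[QA] ℂ) ^ (i : ℕ)
    have hJ : ∀ x i, J x i = D^[(i : ℕ)] x := by
      intro x i
      simp only [J, LinearMap.pi_apply, Module.End.pow_apply]
      rfl
    set V : Matrix (Fin e) (Fin e) ℂ := fun i j => D^[(j : ℕ)] (l i) with hV
    have hVli : LinearIndependent ℂ (fun i => V i) := jets_indep D hD e l hl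
    have hVu : IsUnit V := Matrix.linearIndependent_rows_iff_isUnit.mp hVli
    have hVV : V * V⁻¹ = 1 := Matrix.mul_nonsing_inv V ((Matrix.isUnit_iff_isUnit_det V).mp hVu)
    have hU : ∀ r i', ∑ j, V⁻¹ j r * D^[(j : ℕ)] (l i') = if i' = r then 1 else 0 := by
      intro r i'
      have h1 := congrFun (congrFun hVV i') r
      rw [Matrix.mul_apply, Matrix.one_apply] at h1
      rw [← h1]
      refine Finset.sum_congr rfl fun j _ => ?_
      rw [mul_comm]
    let U : Fin (Fintype.card (V0 k a) + 1) → Fin e → ℂ := fun r j => V⁻¹ j (i r)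
    let τ : Fin (Fintype.card (V0 k a) + 1) → ℂ := fun r => -∑ j, U r j * D^[(j : ℕ)] u
    choose Φ hΦ0 hΦd hΦ using fun i0 => hd i0 (D.restrictScalars ℤ) (fun v => D (lam v) / lam v) U τ
    have hcval : ∀ c : Fin e → ℂ, (∀ i, c i ∈ Set.range (algebraMap QA ℂ)) → ∀ r,
        ∑ j, U r j * D^[(j : ℕ)] (u + ∑ j, c j * l j) + τ r = c (i r) := by
      intro c hc r
      choose q hq using hc
      have h1 : ∀ j : Fin e, D^[(j : ℕ)] (u + ∑ j, c j * l j) =
          D^[(j : ℕ)] u + ∑ i', c i' * D^[(j : ℕ)] (l i') := by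
        intro j
        have h2 : (∑ j, c j * l j) = ∑ j, q j • l j := by
          refine Finset.sum_congr rfl fun j _ => ?_
          rw [Algebra.smul_def, hq]
        rw [h2, ← hJ, map_add, map_sum, Pi.add_apply, Finset.sum_apply, hJ]
        congr 1
        refine Finset.sum_congr rfl fun i' _ => ?_
        rw [map_smul, Pi.smul_apply, hJ, Algebra.smul_def, hq]
      simp only [h1, mul_add, Finset.sum_add_distrib, Finset.mul_sum]
      rw [Finset.sum_comm]
      have h3 : ∀ i', ∑ j, U r j * (c i' * D^[(j : ℕ)] (l i')) = if i' = i r then c i' else 0 := by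
        intro i'
        have h4 := hU (i r) i'
        have h5 : ∑ j, U r j * (c i' * D^[(j : ℕ)] (l i')) =
            c i' * ∑ j, V⁻¹ j (i r) * D^[(j : ℕ)] (l i') := by
          rw [Finset.mul_sum]
          refine Finset.sum_congr rfl fun j _ => ?_
          simp only [U]
          ring
        rw [h5, h4, mul_ite, mul_one, mul_zero]
      simp only [h3, τ]
      rw [Finset.sum_ite_eq' univ (i r) c, if_pos (mem_univ _)]
      ring
    refine ⟨(X 0 - C (τ 0)) * ∏ i, Φ i, ?_, ?_, ?_⟩
    · refine mul_ne_zero ?_ (Finset.prod_ne_zero_iff.mpr fun i _ => hΦ0 i)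
      intro h0
      have h1 := congrArg (eval (fun _ => τ 0 + 1)) h0
      simp at h1
    · refine (totalDegree_mul _ _).trans (add_le_add ?_ ?_)
      · refine (totalDegree_sub _ _).trans (max_le (totalDegree_X _).le ?_)
        rw [totalDegree_C]
        exact Nat.zero_le _
      · exact (totalDegree_finsetProd _ _).trans (Finset.sum_le_sum fun i _ => hΦd i)
    · rintro c ⟨hc, hbad⟩
      set x := u + ∑ j, c j * l j with hx
      have hcv := hcval c hc
      rw [← hx] at hcv
      rw [map_mul, map_sub, eval_X, eval_C, map_prod]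
      by_cases hx0 : x = 0
      · have h1 := hcv 0
        rw [hx0] at h1
        have h2 : ∀ j : Fin e, D^[(j : ℕ)] (0 : ℂ) = 0 := by
          intro j
          rw [← hJ, map_zero]
          rfl
        simp only [h2, mul_zero, Finset.sum_const_zero, zero_add] at h1
        rw [h1, Function.comp_apply, sub_self, zero_mul]
      · obtain ⟨j0, P, hP1, hP2, hP3, hP4⟩ := exists_prog D hlam hDg hx0 hbad
        have h4 := hΦ j0 P hP1 hP3 hP4
        rw [hP2] at h4
        have h5 : (fun r : Fin (Fintype.card (V0 k a) + 1) =>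
            ∑ j, U r j * (D.restrictScalars ℤ)^[(j : ℕ)] x + τ r) = c ∘ i := by
          funext r
          exact hcv r
        rw [h5] at h4
        rw [Finset.prod_eq_zero (mem_univ j0) h4, mul_zero]
  · refine ⟨1, one_ne_zero, by rw [totalDegree_one]; exact Nat.zero_le _, ?_⟩
    rintro c ⟨_, hbad⟩
    exact absurd (noCx_of_lt hDg _) hbad

theorem card_V0 (k a : ℕ) : Fintype.card (V0 k a) = 2 * a * (a + k) + 5 * a + 2 := by
  classical
  have h : Function.Bijective (V0.toSum : V0 k a → _) := by
    constructor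
    · intro x y h
      cases x <;> cases y <;> simp_all [V0.toSum]
    · rintro (⟨i, b, v⟩ | ⟨i, b⟩ | ⟨i, b, j⟩ | ⟨i, b⟩ | i | b)
      · exact ⟨.ev i b v, rfl⟩
      · exact ⟨.ex i b, rfl⟩
      · exact ⟨.es i b j, rfl⟩
      · exact ⟨.M i b, rfl⟩
      · exact ⟨.I i, rfl⟩
      · cases b
        · exact ⟨.J, rfl⟩
        · exact ⟨.X, rfl⟩
  rw [Fintype.card_of_bijective h]
  simp only [Fintype.card_sum, Fintype.card_prod, Fintype.card_fin, Fintype.card_bool]
  ring

/-- the exceptional matrices -/
noncomputable def ExcN {k e n : ℕ} (a : ℕ) (Dg : ℕ∞) (lam : Fin k → ℂ) (l : Fin e → ℂ) (u : Fin n → ℂ)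
    (A : Finset QA) : Finset (Fin n → Fin e → QA) := by
  classical
  exact (Fintype.piFinset fun _ : Fin n => Fintype.piFinset fun _ : Fin e => A).filter
    (fun c => ¬ NoCx a Dg (Sum.elim lam fun i => u i + ∑ j, (c i j : ℂ) * l j))

theorem mem_ExcN {k e n : ℕ} {a : ℕ} {Dg : ℕ∞} {lam : Fin k → ℂ} {l : Fin e → ℂ} {u : Fin n → ℂ}
    {A : Finset QA} {c : Fin n → Fin e → QA} : c ∈ ExcN a Dg lam l u A ↔
      (∀ i j, c i j ∈ A) ∧ ¬ NoCx a Dg (Sum.elim lam fun i => u i + ∑ j, (c i j : ℂ) * l j) := by
  classical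
  unfold ExcN
  rw [mem_filter, Fintype.mem_piFinset]
  simp only [Fintype.mem_piFinset]

theorem fixed (k a e : ℕ) : ∀ n : ℕ, ∃ C : ℕ, ∀ (Dg : ℕ∞) (lam : Fin k → ℂ), NoCx a Dg lam →
    ∀ (l : Fin e → ℂ), LinearIndependent QA l → ∀ (u : Fin n → ℂ) (A : Finset QA), A.Nonempty →
      (ExcN a Dg lam l u A).card ≤
        C * A.card ^ ((n - 1) * e + (2 * a * (a + k + (n - 1)) + 5 * a + 2)) := by
  classical
  intro n
  induction n with
  | zero =>
    refine ⟨0, ?_⟩
    intro Dg lam hlam l hl u A hA
    rw [zero_mul, Nat.le_zero, card_eq_zero, Finset.eq_empty_iff_forall_notMem]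
    intro c hc
    rw [mem_ExcN] at hc
    apply hc.2
    have h2 := NoCx.comp_inj hlam (Sum.elim id (fun i : Fin 0 => i.elim0) : Fin k ⊕ Fin 0 → Fin k) (by
      rintro (a | a) (a' | a') h
      · exact congrArg Sum.inl h
      · exact a'.elim0
      · exact a.elim0
      · exact a.elim0)
    convert h2 using 1
    funext t
    rcases t with a | a
    · rfl
    · exact a.elim0
  | succ n ih =>
    obtain ⟨C1, hC1⟩ := ih
    obtain ⟨d, hd⟩ := dep_single (k + n) a e
    obtain ⟨C2, hC2⟩ := count_dep d e (Fintype.card (V0 (k + n) a))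
    refine ⟨C1 + C2, ?_⟩
    intro Dg lam hlam l hl u A hA
    set h := A.card with hh
    have hh1 : 1 ≤ h := hA.card_pos
    set y : (Fin (n + 1) → Fin e → QA) → Fin (n + 1) → ℂ := fun c i => u i + ∑ j, (c i j : ℂ) * l j with hy
    -- the two parts
    set S1 := (ExcN a Dg lam l u A).filter (fun c => c ∘ Fin.castSucc ∈ ExcN a Dg lam l (u ∘ Fin.castSucc) A)
      with hS1
    set S2 := (ExcN a Dg lam l u A).filter (fun c => c ∘ Fin.castSucc ∉ ExcN a Dg lam l (u ∘ Fin.castSucc) A)
      with hS2
    have hsplit : (ExcN a Dg lam l u A).card = S1.card + S2.card := by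
      rw [hS1, hS2]
      exact (Finset.card_filter_add_card_filter_not _).symm
    have hpi : (Fintype.piFinset fun _ : Fin e => A).card = h ^ e := by
      rw [Fintype.card_piFinset_const]
    have h1 : S1.card ≤ (ExcN a Dg lam l (u ∘ Fin.castSucc) A).card * h ^ e := by
      rw [← hpi, ← card_product]
      refine Finset.card_le_card_of_injOn (fun c => (c ∘ Fin.castSucc, c (Fin.last n))) ?_ ?_
      · intro c hc
        rw [hS1, mem_coe, mem_filter] at hc
        rw [mem_coe, mem_product, Fintype.mem_piFinset]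
        exact ⟨hc.2, fun j => (mem_ExcN.mp hc.1).1 _ _⟩
      · intro c _ c' _ hcc
        simp only [Prod.mk.injEq] at hcc
        funext i
        refine Fin.lastCases hcc.2 (fun i => ?_) i
        exact congrFun hcc.1 i
    have h1' : S1.card ≤ C1 * h ^ (n * e + (2 * a * (a + k + n) + 5 * a + 2)) := by
      rcases Nat.eq_zero_or_pos n with hn | hn
      · -- n = 0
        subst hn
        have h2 := hC1 Dg lam hlam l hl (u ∘ Fin.castSucc) A hA
        refine h1.trans ?_
        have h3 : (ExcN a Dg lam l (u ∘ Fin.castSucc) A).card = 0 := by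
          rw [card_eq_zero, Finset.eq_empty_iff_forall_notMem]
          intro c hc
          rw [mem_ExcN] at hc
          apply hc.2
          have h2 := NoCx.comp_inj hlam (Sum.elim id (fun i : Fin 0 => i.elim0) : Fin k ⊕ Fin 0 → Fin k) (by
            rintro (a | a) (a' | a') h
            · exact congrArg Sum.inl h
            · exact a'.elim0
            · exact a.elim0
            · exact a.elim0)
          convert h2 using 1
          funext t
          rcases t with a | a
          · rfl
          · exact a.elim0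
        rw [h3, zero_mul]
        exact Nat.zero_le _
      · have h2 := hC1 Dg lam hlam l hl (u ∘ Fin.castSucc) A hA
        refine h1.trans ((Nat.mul_le_mul_right _ h2).trans ?_)
        rw [mul_assoc, ← pow_add]
        refine Nat.mul_le_mul_left _ (Nat.pow_le_pow_right hh1 ?_)
        obtain ⟨n', rfl⟩ : ∃ n', n = n' + 1 := ⟨n - 1, by omega⟩
        rw [Nat.add_sub_cancel]
        nlinarith
    have h2 : S2.card ≤ h ^ (n * e) * (C2 * h ^ (2 * a * (a + k + n) + 5 * a + 2)) := by
      have hmaps : ∀ c ∈ S2, c ∘ Fin.castSucc ∈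
          (Fintype.piFinset fun _ : Fin n => Fintype.piFinset fun _ : Fin e => A) := by
        intro c hc
        rw [hS2, mem_filter] at hc
        rw [Fintype.mem_piFinset]
        intro i
        rw [Fintype.mem_piFinset]
        intro j
        exact (mem_ExcN.mp hc.1).1 _ _
      rw [Finset.card_eq_sum_card_fiberwise hmaps]
      refine (Finset.sum_le_card_nsmul _ _ (C2 * h ^ (2 * a * (a + k + n) + 5 * a + 2)) ?_).trans ?_
      · intro c0 _
        rcases (S2.filter (fun c => c ∘ Fin.castSucc = c0)).eq_empty_or_nonempty with he | ⟨c1, hc1⟩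
        · rw [he, card_empty]; exact Nat.zero_le _
        · rw [mem_filter] at hc1
          have hgood : NoCx a Dg (MP60829e.Rate.rest lam (y c1 ∘ Fin.castSucc)) := by
            have h3 := (mem_filter.mp (hS2 ▸ hc1.1)).2
            rw [mem_ExcN] at h3
            push Not at h3
            have hc1S : c1 ∈ S2 := hc1.1
            rw [hS2, mem_filter, mem_ExcN] at hc1S
            have h4 := h3 (fun i j => hc1S.1.1 _ _)
            exact NoCx.comp_inj h4 _ finSumFinEquiv.symm.injective
          set emb : (Fin e → QA) → (Fin e → ℂ) := fun c j => (c j : ℂ) with hemb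
          have hembinj : Function.Injective emb := by
            intro c c' hcc
            funext j
            exact Subtype.ext (congrFun hcc j)
          have hA' : (A.image (fun q : QA => (q : ℂ))).card = h :=
            card_image_of_injective _ Subtype.val_injective
          have h3 := hC2 ℂ (A.image (fun q : QA => (q : ℂ))) (hA.image _)
            ((S2.filter (fun c => c ∘ Fin.castSucc = c0)).image (fun c => emb (c (Fin.last n)))) ?_ ?_
          · rw [hA', card_V0, ← add_assoc a k n, Finset.card_image_of_injOn] at h3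
            · exact h3
            · intro c hc c' hc' hcc
              rw [mem_coe, mem_filter] at hc hc'
              funext i
              refine Fin.lastCases (hembinj hcc) (fun i => ?_) i
              exact congrFun (hc.2.trans hc'.2.symm) i
          · intro c hc j
            rw [mem_image] at hc
            obtain ⟨c', hc', rfl⟩ := hc
            rw [mem_filter] at hc'
            exact mem_image_of_mem _ ((mem_ExcN.mp (mem_filter.mp (hS2 ▸ hc'.1)).1).1 _ _)
          · have h4 := hd Dg (MP60829e.Rate.rest lam (y c1 ∘ Fin.castSucc)) hgood l hl (u (Fin.last n))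
            intro i hi
            obtain ⟨Φ, hΦ0, hΦd, hΦ⟩ := h4 i hi
            refine ⟨Φ, hΦ0, hΦd, fun c hc => hΦ c ?_⟩
            rw [mem_coe, mem_image] at hc
            obtain ⟨c', hc', rfl⟩ := hc
            rw [mem_filter] at hc'
            refine ⟨fun j => ⟨c' (Fin.last n) j, rfl⟩, ?_⟩
            intro hno
            have h5 := (mem_ExcN.mp (mem_filter.mp (hS2 ▸ hc'.1)).1).2
            apply h5
            have h6 : y c1 ∘ Fin.castSucc = y c' ∘ (Fin.last n).succAbove := by
              funext j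
              have h7 := congrFun (hc1.2.trans hc'.2.symm) j
              simp only [Function.comp_apply] at h7
              simp only [hy, Function.comp_apply, Fin.succAbove_last]
              rw [h7]
            refine her_of_rest (N := fun _ x => NoCx a Dg x) (fun _ _ _ e he h => NoCx.comp_inj h e he)
              (y c') (Fin.last n) ?_
            rw [h6] at hno
            exact hno
      · rw [smul_eq_mul, Fintype.card_piFinset_const, hpi, ← pow_mul, mul_comm e n]
    rw [hsplit, Nat.add_sub_cancel, add_mul]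
    refine add_le_add h1' (h2.trans (le_of_eq ?_))
    rw [pow_add]
    ring

end MP60829e.AC
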